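import Pool.Agent.TH270.MC.Defs
import Pool.Agent.TH270.MS.QSys

/-!
# Complex Euler products over the prime numbers
-/

set_option autoImplicit false

open MeasureTheory Filter Topology Set Complex
open Pool.Agent.TH942.ES
open Pool.Agent.TH270.MS Pool.Agent.TH270.SH

namespace Pool.Agent.TH270.MC

/-- the roots, as a list -/
noncomputable def rtsC (Q : Polynomial ℂ) : List ℂ := Q.roots.toList

/-- the normalized inverse roots, padded by zeros -/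
noncomputable def alQ (Q : Polynomial ℂ) (D : ℕ) (r : ℝ) (j : Fin D) : ℂ :=
  ((rtsC Q).getD j 0)⁻¹ * r

section loc

variable {Q : Polynomial ℂ} {D : ℕ} {r : ℝ}

theorem rtsC_length (hD : Q.natDegree ≤ D) : (rtsC Q).length ≤ D := by
  unfold rtsC
  rw [Multiset.length_toList]
  exact (Polynomial.card_roots' _).trans hD

theorem ne_zero_of (h0 : Q.coeff 0 = 1) : Q ≠ 0 := by
  rintro rfl
  simp at h0

theorem alQ_norm (h0 : Q.coeff 0 = 1) (hr : 0 < r) (hroot : ∀ ρ : ℂ, Q.IsRoot ρ → r ≤ ‖ρ‖)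
    (j : Fin D) : ‖alQ Q D r j‖ ≤ 1 := by
  unfold alQ
  rw [norm_mul, norm_inv, Complex.norm_real, Real.norm_eq_abs, abs_of_pos hr]
  by_cases h : (j : ℕ) < (rtsC Q).length
  · have h1 : (rtsC Q).getD j 0 ∈ rtsC Q := by
      rw [List.getD_eq_getElem _ _ h]
      exact List.getElem_mem h
    have h2 := hroot _ (by
      unfold rtsC at h1
      rw [Multiset.mem_toList, Polynomial.mem_roots (ne_zero_of h0)] at h1
      exact h1)
    have h3 : 0 < ‖(rtsC Q).getD j 0‖ := hr.trans_le h2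
    rw [inv_mul_le_one₀ h3]
    exact h2
  · rw [List.getD_eq_default _ _ (by omega)]
    simp

theorem prod_alQ (h0 : Q.coeff 0 = 1) (hD : Q.natDegree ≤ D) (z : ℂ) :
    ∏ j, (1 - alQ Q D r j * z) = Q.eval (r * z) := by
  have h1 := prod_getD (fun w : ℂ => 1 - w⁻¹ * r * z) (by simp) D (rtsC Q) (rtsC_length hD)
  simp only [alQ]
  rw [h1, TH652.COL.eval_eq_prod _ h0]
  unfold rtsC
  rw [← Multiset.prod_coe, ← Multiset.map_coe, Multiset.coe_toList]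
  refine congrArg Multiset.prod (Multiset.map_congr rfl fun ρ _ => ?_)
  ring

theorem pow_alQ (hD : Q.natDegree ≤ D) (z : ℂ) (k : ℕ) :
    ∑ j, (alQ Q D r j * z) ^ (k + 1) = (Q.roots.map fun ρ => (ρ⁻¹ * (r * z)) ^ (k + 1)).sum := by
  have h1 := sum_getD (fun w : ℂ => (w⁻¹ * r * z) ^ (k + 1)) (by simp) D (rtsC Q) (rtsC_length hD)
  simp only [alQ]
  rw [h1]
  unfold rtsC
  rw [← Multiset.sum_coe, ← Multiset.map_coe, Multiset.coe_toList]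
  refine congrArg Multiset.sum (Multiset.map_congr rfl fun ρ _ => ?_)
  ring

end loc

/-- local data at the prime numbers, with centre `m` -/
structure PD (Q : ℕ → Polynomial ℂ) (D : ℕ) (m : ℤ) : Prop where
  const : ∀ p, p.Prime → (Q p).coeff 0 = 1
  deg : ∀ p, p.Prime → (Q p).natDegree ≤ D
  root : ∀ p : ℕ, p.Prime → ∀ ρ : ℂ, (Q p).IsRoot ρ → (p : ℝ) ^ (1 / 2 - (m : ℝ)) ≤ ‖ρ‖

/-- the norms -/
def nP (v : Nat.Primes) : ℕ := v

/-- the normalized roots -/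
noncomputable def alP (Q : ℕ → Polynomial ℂ) (D : ℕ) (m : ℤ) (v : Nat.Primes) : Fin D → ℂ :=
  alQ (Q v) D (((v : ℕ) : ℝ) ^ (1 / 2 - (m : ℝ)))

variable {Q : ℕ → Polynomial ℂ} {D : ℕ} {m : ℤ}

theorem nP_pos (v : Nat.Primes) : (0 : ℝ) < (v : ℕ) := by exact_mod_cast v.2.pos

theorem r_mulP (v : Nat.Primes) (m : ℤ) :
    ((v : ℕ) : ℝ) ^ (1 / 2 - (m : ℝ)) * (√((v : ℕ) : ℝ))⁻¹ = ((v : ℕ) : ℝ) ^ (-(m : ℝ)) := by
  rw [Real.sqrt_eq_rpow, ← Real.rpow_neg (nP_pos v).le, ← Real.rpow_add (nP_pos v)]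
  congr 1
  ring

theorem r_mulC (v : Nat.Primes) (m : ℤ) :
    ((((v : ℕ) : ℝ) ^ (1 / 2 - (m : ℝ)) : ℝ) : ℂ) * (((√((v : ℕ) : ℝ))⁻¹ : ℝ) : ℂ) =
      ((v : ℕ) : ℂ) ^ (-m) := by
  rw [← Complex.ofReal_mul, r_mulP]
  have h1 : ((v : ℕ) : ℝ) ^ (-(m : ℝ)) = ((v : ℕ) : ℝ) ^ (-m) := by
    have : (-(m : ℝ)) = ((-m : ℤ) : ℝ) := by push_cast; rfl
    rw [this, Real.rpow_intCast]
  rw [h1]
  push_cast
  rfl

theorem PD.cs (h : PD Q D m) : CS nP (alP Q D m) := by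
  have E := q_sys Nat.Prime (fun _ h => h) (fun _ (_ : Fin 0) => (0 : ℂ)) (fun _ i => i.elim0)
    (fun _ => by simp)
  exact ⟨E.cnt, E.two_le, E.sum, E.log_sum, fun v j =>
    alQ_norm (h.const v v.2) (Real.rpow_pos_of_pos (nP_pos v) _) (h.root v v.2) j⟩

theorem zvP (v : Nat.Primes) (j : Fin D) :
    zv nP (alP Q D m) v j = alP Q D m v j * (((√((v : ℕ) : ℝ))⁻¹ : ℝ) : ℂ) := by
  unfold zv nP
  rw [div_eq_mul_inv, Complex.ofReal_inv]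

theorem PD.factor (h : PD Q D m) (v : Nat.Primes) (s : ℂ) :
    ∏ i, (1 - zv nP (alP Q D m) v i * xv nP v s)⁻¹ =
      ((Q v).eval (((v : ℕ) : ℂ) ^ (-((m : ℂ) + s))))⁻¹ := by
  rw [Finset.prod_inv_distrib]
  congr 1
  have h1 := prod_alQ (r := ((v : ℕ) : ℝ) ^ (1 / 2 - (m : ℝ))) (h.const v v.2) (h.deg v v.2)
    ((((√((v : ℕ) : ℝ))⁻¹ : ℝ) : ℂ) * xv nP v s)
  have h3 : ((v : ℕ) : ℂ) ≠ 0 := by exact_mod_cast (nP_pos v).ne'
  have h2 : ((((v : ℕ) : ℝ) ^ (1 / 2 - (m : ℝ)) : ℝ) : ℂ) *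
      ((((√((v : ℕ) : ℝ))⁻¹ : ℝ) : ℂ) * xv nP v s) = ((v : ℕ) : ℂ) ^ (-((m : ℂ) + s)) := by
    rw [← mul_assoc, r_mulC, neg_add, Complex.cpow_add _ _ h3]
    have h4 : ((v : ℕ) : ℂ) ^ (-(m : ℂ)) = ((v : ℕ) : ℂ) ^ (-m) := by
      have : (-(m : ℂ)) = ((-m : ℤ) : ℂ) := by push_cast; rfl
      rw [this, Complex.cpow_intCast]
    rw [h4]
    congr 1
    unfold xv nP
    rw [Complex.cpow_def_of_ne_zero h3, Complex.ofReal_log (nP_pos v).le, Complex.ofReal_natCast]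
    congr 1
    ring
  rw [h2] at h1
  rw [← h1]
  refine Finset.prod_congr rfl fun j _ => ?_
  rw [zvP]
  unfold alP
  ring

theorem PD.LE_eq (h : PD Q D m) (s : ℂ) : LE nP (alP Q D m) s =
    ∏' v : Nat.Primes, ((Q v).eval (((v : ℕ) : ℂ) ^ (-((m : ℂ) + s))))⁻¹ := by
  unfold Pool.Agent.TH942.ES.LE
  exact tprod_congr fun v => h.factor v s

theorem PD.exp_cv (h : PD Q D m) (v : Nat.Primes) :
    exp (cvC nP (alP Q D m) v) = (Q v).eval (((v : ℕ) : ℂ) ^ (-m)) := by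
  unfold cvC
  rw [Complex.exp_sum]
  have h1 := prod_alQ (r := ((v : ℕ) : ℝ) ^ (1 / 2 - (m : ℝ))) (h.const v v.2) (h.deg v v.2)
    ((((√((v : ℕ) : ℝ))⁻¹ : ℝ) : ℂ))
  rw [r_mulC] at h1
  rw [← h1]
  refine Finset.prod_congr rfl fun j _ => ?_
  rw [Complex.exp_log, zvP]
  · rfl
  · intro h0
    have h2 := h.cs.norm_zv_lt v j
    rw [sub_eq_zero] at h0
    rw [← h0, norm_one] at h2
    exact lt_irrefl _ h2

theorem PD.cC_one (h : PD Q D m) (v : Nat.Primes) : cC nP (alP Q D m) (v, 1) =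
    ((Q v).roots.map fun ρ => (ρ⁻¹ * ((v : ℕ) : ℂ) ^ (-m)) ^ 2).sum / 2 := by
  have h1 := pow_alQ (r := ((v : ℕ) : ℝ) ^ (1 / 2 - (m : ℝ))) (h.deg v v.2)
    ((((√((v : ℕ) : ℝ))⁻¹ : ℝ) : ℂ)) 1
  rw [r_mulC] at h1
  unfold cC
  simp only [zvP]
  have h2 : ∑ i, (alP Q D m v i * (((√((v : ℕ) : ℝ))⁻¹ : ℝ) : ℂ)) ^ (1 + 1) = _ := h1
  rw [h2]
  norm_num

open Classical in
theorem sumPr (g : ℕ → ℂ) (q : ℕ → Prop) (n : ℕ) (hq : ∀ k, q k → k ≤ n) :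
    ∑ᶠ (v : Nat.Primes) (_ : q v), g v =
      ∑ k ∈ (Finset.Icc 1 n).filter (fun k => k.Prime ∧ q k), g k := by
  have h1 := finsum_subtype_eq_finsum_cond Nat.Prime (f := fun k : ℕ => ∑ᶠ (_ : q k), g k)
  have h0 : ∑ᶠ (v : Nat.Primes) (_ : q v), g v =
      ∑ᶠ (v : {k : ℕ // k.Prime}), ∑ᶠ (_ : q v.1), g v.1 := rfl
  rw [h0, h1]
  have h2 : ∀ k : ℕ, (∑ᶠ (_ : k.Prime), ∑ᶠ (_ : q k), g k) = if k.Prime ∧ q k then g k else 0 := by
    intro k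
    rw [finsum_eq_if, finsum_eq_if]
    by_cases h3 : k.Prime <;> by_cases h4 : q k <;> simp [h3, h4]
  simp only [h2]
  rw [finsum_eq_sum_of_support_subset
    (s := (Finset.Icc 1 n).filter (fun k => k.Prime ∧ q k))]
  · refine Finset.sum_congr rfl fun k hk => ?_
    rw [if_pos (Finset.mem_filter.1 hk).2]
  · intro k hk
    rw [Function.mem_support] at hk
    have h3 : k.Prime ∧ q k := by
      by_contra h
      exact hk (if_neg h)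
    rw [Finset.mem_coe, Finset.mem_filter, Finset.mem_Icc]
    exact ⟨⟨h3.1.pos, hq k h3.2⟩, h3⟩

/-- the sum of the logarithms of the local factors -/
noncomputable def cvs (Q : ℕ → Polynomial ℂ) (D : ℕ) (m : ℤ) (n : ℕ) : ℂ :=
  ∑ᶠ (v : Nat.Primes) (_ : (nP v : ℝ) ≤ (n : ℝ)), cvC nP (alP Q D m) v

/-- the local function -/
noncomputable def gP (Q : ℕ → Polynomial ℂ) (D : ℕ) (m : ℤ) (p : ℕ) : ℂ :=
  ∑ i, log (1 - alQ (Q p) D ((p : ℝ) ^ (1 / 2 - (m : ℝ))) i / ((√(p : ℝ) : ℝ) : ℂ))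

theorem cvC_gP (v : Nat.Primes) : cvC nP (alP Q D m) v = gP Q D m v := rfl

theorem cvs_eq (n : ℕ) : cvs Q D m n =
    ∑ k ∈ (Finset.Icc 1 n).filter (fun k => k.Prime), gP Q D m k := by
  classical
  have h1 := sumPr (gP Q D m) (fun k => k ≤ n) n (fun k h => h)
  unfold cvs
  have h2 : ∑ᶠ (v : Nat.Primes) (_ : (nP v : ℝ) ≤ (n : ℝ)), cvC nP (alP Q D m) v =
      ∑ᶠ (v : Nat.Primes) (_ : (v : ℕ) ≤ n), gP Q D m v := by
    refine finsum_congr fun v => ?_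
    rw [cvC_gP]
    have : ((nP v : ℝ) ≤ (n : ℝ)) = ((v : ℕ) ≤ n) := propext Nat.cast_le
    rw [this]
  rw [h2, h1]
  refine Finset.sum_congr ?_ fun _ _ => rfl
  ext k
  simp only [Finset.mem_filter, Finset.mem_Icc]
  tauto

/-- the product of the local factors -/
theorem PD.exp_cvs (h : PD Q D m) (n : ℕ) : exp (cvs Q D m n) =
    ∏ p ∈ (Finset.Icc 1 n).filter (fun k => k.Prime), (Q p).eval ((p : ℂ) ^ (-m)) := by
  rw [cvs_eq, Complex.exp_sum]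
  refine Finset.prod_congr rfl fun p hp => ?_
  have hp' := (Finset.mem_filter.1 hp).2
  exact h.exp_cv ⟨p, hp'⟩

/-- the correction -/
theorem PD.corr (h : PD Q D m) (n : ℕ) :
    ∑ᶠ (v : Nat.Primes) (_ : √(n : ℝ) < nP v ∧ (nP v : ℝ) ≤ (n : ℝ)), cC nP (alP Q D m) (v, 1) =
      (∑ p ∈ (Finset.Icc 1 n).filter (fun p => p.Prime ∧ n < p ^ 2),
        ((Q p).roots.map fun ρ => (ρ⁻¹ * (p : ℂ) ^ (-m)) ^ 2).sum) / 2 := by
  classical
  have h1 := sumPr (fun p => ((Q p).roots.map fun ρ => (ρ⁻¹ * (p : ℂ) ^ (-m)) ^ 2).sum / 2)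
    (fun k => n < k ^ 2 ∧ k ≤ n) n (fun k h => h.2)
  have h2 : ∑ᶠ (v : Nat.Primes) (_ : √(n : ℝ) < nP v ∧ (nP v : ℝ) ≤ (n : ℝ)),
      cC nP (alP Q D m) (v, 1) = ∑ᶠ (v : Nat.Primes) (_ : n < (v : ℕ) ^ 2 ∧ (v : ℕ) ≤ n),
        ((Q v).roots.map fun ρ => (ρ⁻¹ * ((v : ℕ) : ℂ) ^ (-m)) ^ 2).sum / 2 := by
    refine finsum_congr fun v => ?_
    rw [h.cC_one]
    have : (√(n : ℝ) < nP v ∧ (nP v : ℝ) ≤ (n : ℝ)) = (n < (v : ℕ) ^ 2 ∧ (v : ℕ) ≤ n) := by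
      apply propext
      refine and_congr ?_ Nat.cast_le
      rw [Real.sqrt_lt' (by exact_mod_cast v.2.pos)]
      have e : ((nP v : ℕ) : ℝ) ^ 2 = (((v : ℕ) ^ 2 : ℕ) : ℝ) := by
        push_cast
        rfl
      rw [e, Nat.cast_lt]
    rw [this]
  rw [h2, h1, Finset.sum_div]
  refine Finset.sum_congr ?_ fun _ _ => rfl
  ext k
  simp only [Finset.mem_filter, Finset.mem_Icc]
  tauto

end Pool.Agent.TH270.MC
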