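import Mathlib

/-!
# Almost all integers in the sense of finite logarithmic measure
-/

set_option autoImplicit false

open MeasureTheory Filter Topology Set
open scoped ENNReal

namespace Pool.Agent.TH270.MC

/-- the exceptional set has finite logarithmic measure -/
def AA (S : ℕ → Prop) : Prop := Summable fun n : {n : ℕ // ¬ S n} => (1 : ℝ) / (n : ℕ)

variable {S T : ℕ → Prop}

open Classical in
theorem aa_iff : AA S ↔ Summable fun n : ℕ => if S n then (0 : ℝ) else 1 / n := by
  unfold AA
  have h := summable_subtype_iff_indicator (f := fun n : ℕ => (1 : ℝ) / n) (s := {n : ℕ | ¬ S n})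
  have h2 : ({n : ℕ | ¬ S n}.indicator fun n : ℕ => (1 : ℝ) / n) =
      fun n : ℕ => if S n then (0 : ℝ) else 1 / n := by
    funext n
    by_cases hn : S n
    · rw [indicator_of_notMem (by simpa using hn), if_pos hn]
    · rw [indicator_of_mem (by simpa using hn), if_neg hn]
  rw [← h2, ← h]
  rfl

theorem AA.mono (h : AA S) (hST : ∀ n, S n → T n) : AA T := by
  classical
  rw [aa_iff] at h ⊢
  refine Summable.of_nonneg_of_le (fun n => ?_) (fun n => ?_) h
  · split_ifs
    · exact le_rfl
    · positivity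
  · by_cases hT : T n
    · rw [if_pos hT]
      split_ifs
      · exact le_rfl
      · positivity
    · rw [if_neg hT, if_neg (fun hs => hT (hST n hs))]

theorem AA.and (h : AA S) (h' : AA T) : AA fun n => S n ∧ T n := by
  classical
  rw [aa_iff] at h h' ⊢
  refine Summable.of_nonneg_of_le (fun n => ?_) (fun n => ?_) (h.add h')
  · split_ifs
    · exact le_rfl
    · positivity
  · by_cases hS : S n
    · by_cases hT : T n
      · rw [if_pos ⟨hS, hT⟩, if_pos hS, if_pos hT, add_zero]
      · rw [if_neg (fun h => hT h.2), if_pos hS, if_neg hT, zero_add]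
    · rw [if_neg (fun h => hS h.1), if_neg hS]
      have : (0 : ℝ) ≤ if T n then (0 : ℝ) else 1 / n := by
        split_ifs
        · exact le_rfl
        · positivity
      linarith

theorem AA.all {ι : Type} [Finite ι] {S : ι → ℕ → Prop} (h : ∀ i, AA (S i)) :
    AA fun n => ∀ i, S i n := by
  classical
  have := Fintype.ofFinite ι
  have h1 : ∀ s : Finset ι, AA fun n => ∀ i ∈ s, S i n := by
    intro s
    induction s using Finset.induction_on with
    | empty =>
      rw [aa_iff]
      simpa using summable_zero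
    | insert a s _ ih =>
      refine ((h a).and ih).mono fun n hn i hi => ?_
      rcases Finset.mem_insert.1 hi with h2 | h2
      · rw [h2]; exact hn.1
      · exact hn.2 i h2
  exact (h1 Finset.univ).mono fun n hn i => hn i (Finset.mem_univ i)

theorem aa_of_eventually (h : ∀ᶠ n : ℕ in atTop, S n) : AA S := by
  classical
  obtain ⟨n₀, h1⟩ := eventually_atTop.1 h
  rw [aa_iff]
  refine summable_of_ne_finset_zero (s := Finset.range n₀) fun n hn => ?_
  rw [Finset.mem_range, not_lt] at hn
  rw [if_pos (h1 n hn)]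

theorem AA.exists_ge (h : AA S) (n₀ : ℕ) : ∃ n, n₀ ≤ n ∧ S n := by
  classical
  by_contra hcon
  push Not at hcon
  rw [aa_iff] at h
  have h1 : Summable fun n : ℕ => (1 : ℝ) / n := by
    rw [← summable_nat_add_iff n₀] at h ⊢
    refine h.congr fun n => ?_
    rw [if_neg (hcon (n + n₀) (by omega))]
  exact Real.not_summable_one_div_natCast h1

theorem aa_of_lint {α : Type} [MeasurableSpace α] {μ : Measure α} {φ : α → ℝ≥0∞}
    (hφ : ∫⁻ x, φ x ∂μ < ⊤) {A : ℕ → Set α} (hA : ∀ n, MeasurableSet (A n))
    (hd : Pairwise (Function.onFun Disjoint A)) {δ : ℝ} (hδ : 0 < δ) {n₀ : ℕ}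
    (h : ∀ n : ℕ, n₀ ≤ n → ¬ S n → ENNReal.ofReal (δ / n) ≤ ∫⁻ x in A n, φ x ∂μ) : AA S := by
  classical
  have h1 : ∑' n, ∫⁻ x in A n, φ x ∂μ ≠ ⊤ := by
    rw [← lintegral_iUnion hA hd]
    exact (lt_of_le_of_lt (setLIntegral_le_lintegral _ _) hφ).ne
  have h2 := ENNReal.summable_toReal h1
  have h3 : ∀ n, ∫⁻ x in A n, φ x ∂μ ≠ ⊤ := fun n =>
    (lt_of_le_of_lt (setLIntegral_le_lintegral _ _) hφ).ne
  rw [aa_iff, ← summable_nat_add_iff n₀]
  have h4 := ((summable_nat_add_iff n₀).2 h2).mul_left δ⁻¹
  refine Summable.of_nonneg_of_le (fun n => ?_) (fun n => ?_) h4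
  · split_ifs
    · exact le_rfl
    · positivity
  · split_ifs with hn
    · positivity
    · have h5 := h (n + n₀) (by omega) hn
      have h6 := ENNReal.toReal_mono (h3 _) h5
      rw [ENNReal.toReal_ofReal (by positivity)] at h6
      have h7 := mul_le_mul_of_nonneg_left h6 (inv_pos.2 hδ).le
      refine le_trans (le_of_eq ?_) h7
      field_simp

end Pool.Agent.TH270.MC
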