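import Pool.Agent.TH270.MC.Defs

/-!
# The doubled real system of a complex Euler product
-/

set_option autoImplicit false

open MeasureTheory Filter Topology Set Complex
open Pool.Agent.TH942.ES Pool.Agent.TH270.MS

namespace Pool.Agent.TH270.MC

namespace Dbl

variable {X : Type} {d : ℕ} {N : X → ℕ} {α : X → Fin d → ℂ}

theorem zv_left (v : X) (i : Fin d) : zv N (dbl α) v (Fin.castAdd d i) = zv N α v i := by
  unfold zv dbl
  rw [Fin.append_left]

theorem zv_right (v : X) (i : Fin d) :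
    zv N (dbl α) v (Fin.natAdd d i) = (starRingEnd ℂ) (zv N α v i) := by
  unfold zv dbl
  rw [Fin.append_right, map_div₀, Complex.conj_ofReal]

theorem sum_zv (F : ℂ → ℂ) (v : X) : ∑ i : Fin (d + d), F (zv N (dbl α) v i) =
    ∑ i, F (zv N α v i) + ∑ i, F ((starRingEnd ℂ) (zv N α v i)) := by
  rw [Fin.sum_univ_add]
  simp only [zv_left, zv_right]

theorem prod_zv (F : ℂ → ℂ) (v : X) : ∏ i : Fin (d + d), F (zv N (dbl α) v i) =
    (∏ i, F (zv N α v i)) * ∏ i, F ((starRingEnd ℂ) (zv N α v i)) := by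
  rw [Fin.prod_univ_add]
  simp only [zv_left, zv_right]

theorem log_conj_one_sub {z : ℂ} (hz : ‖z‖ < 1) :
    log (1 - (starRingEnd ℂ) z) = (starRingEnd ℂ) (log (1 - z)) := by
  have h1 : (1 : ℂ) - (starRingEnd ℂ) z = (starRingEnd ℂ) (1 - z) := by
    rw [map_sub, map_one]
  rw [h1]
  apply Complex.log_conj
  intro harg
  rw [Complex.arg_eq_pi_iff] at harg
  have h2 := harg.1
  rw [Complex.sub_re, Complex.one_re] at h2
  have h3 := Complex.re_le_norm z
  linarith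

theorem im_add_conj (w : ℂ) : (w + (starRingEnd ℂ) w).im = 0 := by
  rw [Complex.add_im, Complex.conj_im]
  ring

theorem sum_pow (v : X) (k : ℕ) : ∑ i : Fin (d + d), zv N (dbl α) v i ^ k =
    ∑ i, zv N α v i ^ k + (starRingEnd ℂ) (∑ i, zv N α v i ^ k) := by
  rw [sum_zv (fun z => z ^ k), map_sum]
  simp only [map_pow]

end Dbl

variable {X : Type} {d : ℕ} {N : X → ℕ} {α : X → Fin d → ℂ}

theorem dbl_sys {X : Type} {d : ℕ} {N : X → ℕ} {α : X → Fin d → ℂ} (E : CS N α) :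
    Sys N (dbl α) where
  cnt := E.cnt
  two_le := E.two_le
  sum := E.sum
  log_sum := E.log_sum
  le := by
    intro v i
    unfold dbl
    refine Fin.addCases (fun j => ?_) (fun j => ?_) i
    · rw [Fin.append_left]
      exact E.le v j
    · rw [Fin.append_right, Complex.norm_conj]
      exact E.le v j
  real := by
    intro v
    have h1 : ∑ i : Fin (d + d), log (1 - zv N (dbl α) v i) =
        ∑ i, log (1 - zv N α v i) + (starRingEnd ℂ) (∑ i, log (1 - zv N α v i)) := by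
      rw [Dbl.sum_zv (fun z => log (1 - z)), map_sum]
      congr 1
      exact Finset.sum_congr rfl fun i _ => Dbl.log_conj_one_sub (E.norm_zv_lt v i)
    change (∑ i : Fin (d + d), log (1 - zv N (dbl α) v i)).im = 0
    rw [h1, Dbl.im_add_conj]

theorem dbl_cP {X : Type} {d : ℕ} {N : X → ℕ} {α : X → Fin d → ℂ} (p : X × ℕ) :
    cP N (dbl α) p = 2 * (cC N α p).re := by
  unfold cP cC
  rw [Dbl.sum_pow]
  have h0 : ((p.2 : ℂ) + 1) = (((p.2 : ℝ) + 1 : ℝ) : ℂ) := by push_cast; rfl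
  rw [h0, Complex.div_ofReal_re, Complex.add_re, Complex.conj_re]
  ring

theorem dbl_Pl {X : Type} {d : ℕ} {N : X → ℕ} {α : X → Fin d → ℂ} (E : CS N α) (Y : ℝ) :
    Pl N (dbl α) Y = 2 * (Pc N α Y).re := by
  have hfin := E.empty.finS Y
  have e1 : Pl N (dbl α) Y = ∑ p ∈ hfin.toFinset, cP N (dbl α) p :=
    finsum_mem_eq_finite_toFinset_sum (fun p : X × ℕ => cP N (dbl α) p) hfin
  have e2 : Pc N α Y = ∑ p ∈ hfin.toFinset, cC N α p :=
    finsum_mem_eq_finite_toFinset_sum (fun p : X × ℕ => cC N α p) hfin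
  rw [e1, e2, Complex.re_sum, Finset.mul_sum]
  exact Finset.sum_congr rfl fun p _ => dbl_cP p

namespace Dbl

theorem zx_lt (E : CS N α) {s : ℂ} (hs : 0 ≤ s.re) (v : X) (i : Fin d) :
    ‖zv N α v i * xv N v s‖ < 1 := by
  rw [norm_mul]
  have h1 := E.norm_zv_lt v i
  have h2 := E.empty.norm_xv_le hs v
  have h3 := norm_nonneg (zv N α v i)
  have h4 := norm_nonneg (xv N v s)
  nlinarith

theorem cC_sum (E : CS N α) {σ : ℝ} (hσ : 1 / 2 < σ) :
    Summable fun p : X × ℕ => ‖cC N α p‖ * Real.exp (-(σ * lamP N p)) := by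
  have h1 : Summable fun v : X => (d : ℝ) * (N v : ℝ) ^ (-(1 / 2 + σ)) :=
    (E.sum (1 / 2 + σ) (by linarith)).mul_left _
  have h2 : Summable fun k : ℕ => (1 / 2 : ℝ) ^ k := summable_geometric_two
  refine Summable.of_nonneg_of_le (fun p => by positivity) (fun p => ?_)
    (h1.mul_of_nonneg h2 (fun v => by positivity) (fun k => by positivity))
  have hN := E.empty.Npos p.1
  have e1 : 1 / √(N p.1 : ℝ) = (N p.1 : ℝ) ^ (-(1 / 2 : ℝ)) := by
    rw [Real.rpow_neg hN.le, ← Real.sqrt_eq_rpow, one_div]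
  have e2 : (1 / √(N p.1 : ℝ)) ^ (p.2 + 1) * ((N p.1 : ℝ) ^ (-σ)) ^ (p.2 + 1) =
      ((N p.1 : ℝ) ^ (-(1 / 2 + σ))) ^ (p.2 + 1) := by
    rw [← mul_pow, e1, ← Real.rpow_add hN]
    congr 2
    ring
  have e3 : (N p.1 : ℝ) ^ (-(1 / 2 + σ)) ≤ 1 / 2 := by
    calc (N p.1 : ℝ) ^ (-(1 / 2 + σ)) ≤ (N p.1 : ℝ) ^ (-(1 : ℝ)) :=
          Real.rpow_le_rpow_of_exponent_le (by have := E.empty.Ntwo p.1; linarith) (by linarith)
      _ = (N p.1 : ℝ)⁻¹ := Real.rpow_neg_one _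
      _ ≤ 1 / 2 := by
        rw [one_div]
        exact inv_anti₀ (by norm_num) (E.empty.Ntwo p.1)
  have e4 : 0 ≤ (N p.1 : ℝ) ^ (-(1 / 2 + σ)) := by positivity
  calc ‖cC N α p‖ * Real.exp (-(σ * lamP N p)) ≤
        (d * (1 / √(N p.1 : ℝ)) ^ (p.2 + 1)) * ((N p.1 : ℝ) ^ (-σ)) ^ (p.2 + 1) := by
        rw [E.empty.exp_lamP]
        exact mul_le_mul_of_nonneg_right (E.cC_norm p) (by positivity)
    _ = d * ((N p.1 : ℝ) ^ (-(1 / 2 + σ))) ^ (p.2 + 1) := by rw [mul_assoc, e2]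
    _ = d * ((N p.1 : ℝ) ^ (-(1 / 2 + σ)) * ((N p.1 : ℝ) ^ (-(1 / 2 + σ))) ^ p.2) := by
        rw [pow_succ, mul_comm (((N p.1 : ℝ) ^ (-(1 / 2 + σ))) ^ p.2)]
    _ ≤ d * ((N p.1 : ℝ) ^ (-(1 / 2 + σ)) * (1 / 2) ^ p.2) := by gcongr
    _ = _ := by ring

/-- the inner sums -/
theorem inner (E : CS N α) {s : ℂ} (hs : 0 ≤ s.re) (v : X) :
    HasSum (fun k : ℕ => cC N α (v, k) * exp (-(s * lamP N (v, k))))
      (∑ i, -log (1 - zv N α v i * xv N v s)) := by
  have h1 : ∀ i, HasSum (fun k : ℕ => (zv N α v i * xv N v s) ^ (k + 1) / ((k + 1 : ℕ) : ℂ))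
      (-log (1 - zv N α v i * xv N v s)) := by
    intro i
    have h2 := hasSum_taylorSeries_neg_log (zx_lt E hs v i)
    have h3 := (hasSum_nat_add_iff' (f := fun n : ℕ => (zv N α v i * xv N v s) ^ n / (n : ℂ)) 1).2 h2
    simpa using h3
  refine (hasSum_sum fun i _ => h1 i).congr_fun fun k => ?_
  have e1 : cC N α (v, k) = (∑ i, zv N α v i ^ (k + 1)) / ((k + 1 : ℕ) : ℂ) := by
    unfold cC
    push_cast
    rfl
  have e2 : exp (-(s * (lamP N (v, k) : ℝ))) = xv N v s ^ (k + 1) := by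
    unfold xv lamP
    rw [← Complex.exp_nat_mul]
    congr 1
    push_cast
    ring
  rw [e1, e2, Finset.sum_div, Finset.sum_mul]
  refine Finset.sum_congr rfl fun i _ => ?_
  rw [mul_pow]
  ring

theorem hasProd (E : CS N α) {s : ℂ} (hs : 1 / 2 < s.re) :
    HasProd (fun v => ∏ i, (1 - zv N α v i * xv N v s)⁻¹) (LE N α s) := by
  have hsum : Summable fun p : X × ℕ => cC N α p * exp (-(s * lamP N p)) := by
    refine Summable.of_norm_bounded (cC_sum E hs) fun p => ?_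
    rw [norm_mul, Complex.norm_exp, Complex.neg_re, Complex.re_mul_ofReal]
  have h4 := HasSum.prod_fiberwise hsum.hasSum fun v => inner E (by linarith) v
  have h5 := h4.cexp
  have h6 : (exp ∘ fun v => ∑ i, -log (1 - zv N α v i * xv N v s)) =
      fun v => ∏ i, (1 - zv N α v i * xv N v s)⁻¹ := by
    funext v
    simp only [Function.comp_apply]
    rw [Complex.exp_sum]
    refine Finset.prod_congr rfl fun i _ => ?_
    rw [Complex.exp_neg, Complex.exp_log]
    exact slitPlane_ne_zero (one_sub_mem (zx_lt E (by linarith) v i))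
  rw [h6] at h5
  exact h5.multipliable.hasProd

theorem xv_conj (v : X) (s : ℂ) : (starRingEnd ℂ) (xv N v ((starRingEnd ℂ) s)) = xv N v s := by
  unfold xv
  rw [← Complex.exp_conj, map_neg, map_mul, Complex.conj_conj, Complex.conj_ofReal]

theorem LE_dbl (E : CS N α) {s : ℂ} (hs : 1 / 2 < s.re) :
    LE N (dbl α) s = LE N α s * (starRingEnd ℂ) (LE N α ((starRingEnd ℂ) s)) := by
  have h1 := hasProd E hs
  have h2 := (hasProd E (s := (starRingEnd ℂ) s) (by rwa [Complex.conj_re])).map (starRingEnd ℂ)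
    Complex.continuous_conj
  have h3 := h1.mul h2
  have h4 : (fun v => (∏ i, (1 - zv N α v i * xv N v s)⁻¹) *
      ((starRingEnd ℂ) ∘ fun v => ∏ i, (1 - zv N α v i * xv N v ((starRingEnd ℂ) s))⁻¹) v) =
      fun v => ∏ i : Fin (d + d), (1 - zv N (dbl α) v i * xv N v s)⁻¹ := by
    funext v
    rw [prod_zv (fun z => (1 - z * xv N v s)⁻¹)]
    simp only [Function.comp_apply, map_prod, map_inv₀, map_sub, map_one, map_mul, xv_conj]
  have h5 : HasProd (fun v => ∏ i : Fin (d + d), (1 - zv N (dbl α) v i * xv N v s)⁻¹)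
      (LE N α s * (starRingEnd ℂ) (LE N α ((starRingEnd ℂ) s))) :=
    h3.congr_fun fun v => (congrFun h4 v).symm
  exact h5.tprod_eq

end Dbl

theorem dbl_mc {X : Type} {d : ℕ} {N : X → ℕ} {α : X → Fin d → ℂ} {Ψ : ℂ → ℂ} {κ : ℕ} {η C : ℝ}
    (H : McC N α Ψ κ η C) :
    Mc N (dbl α) (fun s => Ψ s * (starRingEnd ℂ) (Ψ ((starRingEnd ℂ) s)))
      (fun s => Ψ s * (starRingEnd ℂ) (Ψ ((starRingEnd ℂ) s))) 0 (2 * κ) η (C ^ 2) where
  E := dbl_sys H.E
  hreal := by
    intro v k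
    rw [Dbl.sum_pow, Dbl.im_add_conj]
  hη := H.hη
  hG := by
    intro s hs
    refine (H.hG s hs).mul ?_
    have h1 := H.hG ((starRingEnd ℂ) s) (by rwa [Complex.conj_re])
    have h2 := h1.conj_conj
    rw [Complex.conj_conj] at h2
    exact h2
  hgrow := by
    intro s hs
    have h1 := H.hgrow s hs
    have h2 := H.hgrow ((starRingEnd ℂ) s) (by rwa [Complex.conj_re])
    rw [Complex.norm_conj] at h2
    rw [norm_mul, Complex.norm_conj]
    calc ‖Ψ s‖ * ‖Ψ ((starRingEnd ℂ) s)‖ ≤ (C * (1 + ‖s‖) ^ κ) * (C * (1 + ‖s‖) ^ κ) :=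
          mul_le_mul h1 h2 (norm_nonneg _) ((norm_nonneg _).trans h1)
      _ = C ^ 2 * (1 + ‖s‖) ^ (2 * κ) := by ring
  hΨ := by
    intro s _ _
    rw [pow_zero, one_mul]
  hL := by
    intro s hs
    rw [Dbl.LE_dbl H.E hs, H.hL s hs, H.hL ((starRingEnd ℂ) s) (by rwa [Complex.conj_re])]

end Pool.Agent.TH270.MC
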