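import Pool.Agent.TH270.MS.Tail
import Pool.Agent.TH270.MS.Real
import Pool.Agent.TH270.SH.Loc

/-!
# Euler products with complex coefficients: definitions
-/

set_option autoImplicit false

open MeasureTheory Filter Topology Set Complex
open Pool.Agent.TH942.ES
open Pool.Agent.TH270.MS

namespace Pool.Agent.TH270.MC

variable {X : Type} {d : ℕ}

/-- complex systems of local roots -/
structure CS (N : X → ℕ) (α : X → Fin d → ℂ) : Prop where
  cnt : Countable X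
  two_le : ∀ v, 2 ≤ N v
  sum : ∀ r : ℝ, 1 < r → Summable fun v => (N v : ℝ) ^ (-r)
  log_sum : ∃ C σ₀ : ℝ, 0 < σ₀ ∧ ∀ σ : ℝ, 0 < σ → σ < σ₀ →
    Summable (fun v => Real.log (N v) * (N v : ℝ) ^ (-(1 + σ))) ∧
    σ * ∑' v, Real.log (N v) * (N v : ℝ) ^ (-(1 + σ)) ≤ C
  le : ∀ v i, ‖α v i‖ ≤ 1

/-- the coefficient of the prime power `v^(k+1)` -/
noncomputable def cC (N : X → ℕ) (α : X → Fin d → ℂ) (p : X × ℕ) : ℂ :=
  (∑ i, zv N α p.1 i ^ (p.2 + 1)) / ((p.2 : ℂ) + 1)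

/-- minus the logarithm of the local factor at the centre -/
noncomputable def cvC (N : X → ℕ) (α : X → Fin d → ℂ) (v : X) : ℂ :=
  ∑ i, log (1 - zv N α v i)

/-- the logarithm of the partial Euler product over the prime powers `≤ Y` -/
noncomputable def Pc (N : X → ℕ) (α : X → Fin d → ℂ) (Y : ℝ) : ℂ :=
  ∑ᶠ (p : X × ℕ) (_ : (N p.1 : ℝ) ^ (p.2 + 1) ≤ Y), cC N α p

/-- the system together with the conjugate one -/
noncomputable def dbl (α : X → Fin d → ℂ) (v : X) : Fin (d + d) → ℂ :=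
  Fin.append (α v) (fun i => (starRingEnd ℂ) (α v i))

/-- `Ψ` continues the Euler product across the central line, with polynomial growth -/
structure McC (N : X → ℕ) (α : X → Fin d → ℂ) (Ψ : ℂ → ℂ) (κ : ℕ) (η C : ℝ) : Prop where
  E : CS N α
  hη : 0 < η
  hG : ∀ s : ℂ, -η < s.re → DifferentiableAt ℂ Ψ s
  hgrow : ∀ s : ℂ, -η < s.re → ‖Ψ s‖ ≤ C * (1 + ‖s‖) ^ κ
  hL : ∀ s : ℂ, 1 / 2 < s.re → Ψ s = LE N α s

variable {N : X → ℕ} {α : X → Fin d → ℂ}

/-- the lemmas on the norms are available through the empty system -/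
theorem CS.empty (E : CS N α) : Sys N (fun (_ : X) (_ : Fin 0) => (0 : ℂ)) where
  cnt := E.cnt
  two_le := E.two_le
  sum := E.sum
  log_sum := E.log_sum
  le := fun _ i => i.elim0
  real := fun _ => by simp

theorem CS.norm_zv (E : CS N α) (v : X) (i : Fin d) : ‖zv N α v i‖ ≤ 1 / √(N v : ℝ) := by
  have h1 : 0 < √(N v : ℝ) := Real.sqrt_pos.2 (E.empty.Npos v)
  unfold zv
  rw [norm_div, Complex.norm_real, Real.norm_eq_abs, abs_of_pos h1]
  exact div_le_div_of_nonneg_right (E.le v i) h1.le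

theorem CS.norm_zv_lt (E : CS N α) (v : X) (i : Fin d) : ‖zv N α v i‖ < 1 := by
  refine (E.norm_zv v i).trans_lt ?_
  have h2 := E.empty.Ntwo v
  have h3 : 1 < √(N v : ℝ) := by
    rw [Real.lt_sqrt (by norm_num)]
    linarith
  rw [div_lt_one (by linarith)]
  exact h3

theorem CS.cC_norm (E : CS N α) (p : X × ℕ) : ‖cC N α p‖ ≤ d * (1 / √(N p.1 : ℝ)) ^ (p.2 + 1) := by
  unfold cC
  have h0 : ‖((p.2 : ℂ) + 1)‖ = (p.2 : ℝ) + 1 := by
    have : ((p.2 : ℂ) + 1) = (((p.2 : ℝ) + 1 : ℝ) : ℂ) := by push_cast; rfl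
    rw [this, Complex.norm_real, Real.norm_eq_abs, abs_of_pos (by positivity)]
  rw [norm_div, h0]
  have h1 : ‖∑ i, zv N α p.1 i ^ (p.2 + 1)‖ ≤ d * (1 / √(N p.1 : ℝ)) ^ (p.2 + 1) := by
    refine (norm_sum_le _ _).trans ?_
    calc ∑ i, ‖zv N α p.1 i ^ (p.2 + 1)‖ ≤ ∑ _i : Fin d, (1 / √(N p.1 : ℝ)) ^ (p.2 + 1) := by
          refine Finset.sum_le_sum fun i _ => ?_
          rw [norm_pow]
          exact pow_le_pow_left₀ (norm_nonneg _) (E.norm_zv p.1 i) _
      _ = _ := by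
        rw [Finset.sum_const, Finset.card_univ, Fintype.card_fin, nsmul_eq_mul]
  refine (div_le_self (norm_nonneg _) ?_).trans h1
  have : (0 : ℝ) ≤ p.2 := Nat.cast_nonneg _
  linarith

end Pool.Agent.TH270.MC
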