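import Mathlib
set_option autoImplicit false
open NumberField
namespace Pool.Agent.TH270.MC

theorem lattice_limit {E : Type} [Field E] [NumberField E] (v : (E →+* ℂ) → ℂ)
    (h : ∀ ε : ℝ, 0 < ε → ∃ a : 𝓞 E, ∀ τ : E →+* ℂ, ‖v τ - τ (a : E)‖ < ε) :
    ∃ a : 𝓞 E, ∀ τ : E →+* ℂ, v τ = τ (a : E) := by
  classical
  by_contra hcon
  push Not at hcon
  obtain ⟨B, hB⟩ : ∃ B : ℝ, ∀ τ : E →+* ℂ, ‖v τ‖ ≤ B := by
    refine ⟨∑ τ : E →+* ℂ, ‖v τ‖, fun τ => ?_⟩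
    exact Finset.single_le_sum (f := fun τ : E →+* ℂ => ‖v τ‖) (fun _ _ => norm_nonneg _)
      (Finset.mem_univ τ)
  have hfin := NumberField.Embeddings.finite_of_norm_le E ℂ (B + 1)
  have hev : ∀ᶠ ε : ℝ in nhdsWithin 0 (Set.Ioi 0),
      ∀ x ∈ {x : E | IsIntegral ℤ x ∧ ∀ φ : E →+* ℂ, ‖φ x‖ ≤ B + 1},
        ∃ τ : E →+* ℂ, ε ≤ ‖v τ - τ x‖ := by
    rw [Filter.eventually_all_finite hfin]
    intro x hx
    obtain ⟨τ, hτ⟩ := hcon ⟨x, hx.1⟩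
    have hpos : 0 < ‖v τ - τ x‖ := norm_pos_iff.mpr (sub_ne_zero.mpr hτ)
    have h1 : ∀ᶠ ε : ℝ in nhdsWithin 0 (Set.Ioi 0), ε ≤ ‖v τ - τ x‖ :=
      nhdsWithin_le_nhds (Iic_mem_nhds hpos)
    filter_upwards [h1] with ε hε
    exact ⟨τ, hε⟩
  have h1 : ∀ᶠ ε : ℝ in nhdsWithin 0 (Set.Ioi 0), ε ≤ 1 :=
    nhdsWithin_le_nhds (Iic_mem_nhds one_pos)
  have h0 : ∀ᶠ ε : ℝ in nhdsWithin 0 (Set.Ioi 0), 0 < ε := self_mem_nhdsWithin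
  obtain ⟨ε, hε, hε1, hε0⟩ := (hev.and (h1.and h0)).exists
  obtain ⟨a, ha⟩ := h ε hε0
  obtain ⟨τ, hτ⟩ := hε (a : E) ⟨a.2, fun φ => by
    have := ha φ
    have h2 : ‖φ (a : E)‖ ≤ ‖v φ‖ + ‖v φ - φ (a : E)‖ := by
      have h3 : φ (a : E) = v φ - (v φ - φ (a : E)) := by ring
      calc ‖φ (a : E)‖ = ‖v φ - (v φ - φ (a : E))‖ := by rw [← h3]
        _ ≤ _ := norm_sub_le _ _
    have h4 := hB φ
    linarith⟩
  exact absurd (ha τ) (not_lt.mpr hτ)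

theorem exists_denom {E : Type} [Field E] [NumberField E] (x : E) :
    ∃ (N : ℕ) (a : 𝓞 E), 1 ≤ N ∧ (N : E) * x = (a : E) := by
  have hx : IsAlgebraic ℤ x := by
    have h1 : IsAlgebraic ℚ x := Algebra.IsAlgebraic.isAlgebraic x
    exact (IsFractionRing.isAlgebraic_iff ℤ ℚ E).mpr h1
  obtain ⟨z, hz0, hz⟩ := hx.exists_integral_multiple
  refine ⟨z.natAbs, ⟨(z.natAbs : E) * x, ?_⟩, ?_, rfl⟩
  · rcases Int.natAbs_eq z with h | h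
    · have h2 : ((z.natAbs : ℕ) : E) * x = z • x := by
        rw [zsmul_eq_mul, h]; simp
      rw [h2]; exact hz
    · have h2 : ((z.natAbs : ℕ) : E) * x = -(z • x) := by
        rw [zsmul_eq_mul, h]; simp
      rw [h2]; exact hz.neg
  · exact Int.natAbs_pos.mpr hz0

end Pool.Agent.TH270.MC
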