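import Pool.Agent.TH270.MC.Law
import Pool.Agent.TH270.MC.Prim
import Pool.Agent.TH270.MC.Lat

/-!
# Central values of Euler products over the rational primes with complex coefficients
-/

set_option autoImplicit false

open MeasureTheory Filter Topology Set Complex
open Pool.Agent.TH942.ES
open Pool.Agent.TH270.MS

namespace Pool.Agent.TH270.MC

variable {Q : ℕ → Polynomial ℂ} {D : ℕ} {m : ℤ} {F : ℂ → ℂ}

/-- the data from a continuation -/
theorem PD.mcc (h : PD Q D m) {η C : ℝ} {κ : ℕ} (hη : 0 < η)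
    (hF : ∀ s : ℂ, (m : ℝ) - η < s.re → DifferentiableAt ℂ F s ∧ ‖F s‖ ≤ C * (1 + ‖s‖) ^ κ)
    (he : ∀ s : ℂ, (m : ℝ) + 1 / 2 < s.re →
      F s = ∏' p : Nat.Primes, ((Q p).eval (((p : ℕ) : ℂ) ^ (-s)))⁻¹) :
    McC nP (alP Q D m) (fun s => F (m + s)) κ η (|C| * (1 + |(m : ℝ)|) ^ κ) where
  E := h.cs
  hη := hη
  hG := fun s hs => by
    have h1 : DifferentiableAt ℂ F ((m : ℂ) + s) := (hF _ (by
      rw [Complex.add_re, Complex.intCast_re]
      linarith)).1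
    exact DifferentiableAt.comp (g := F) (f := fun s : ℂ => (m : ℂ) + s) s h1 (by fun_prop)
  hgrow := fun s hs => by
    have h1 := (hF ((m : ℂ) + s) (by
      rw [Complex.add_re, Complex.intCast_re]
      linarith)).2
    refine h1.trans ?_
    have e2 : 1 + ‖(m : ℂ) + s‖ ≤ (1 + |(m : ℝ)|) * (1 + ‖s‖) := by
      have h2 := norm_add_le (m : ℂ) s
      have h3 : ‖(m : ℂ)‖ = |(m : ℝ)| := by
        rw [← Complex.ofReal_intCast, Complex.norm_real, Real.norm_eq_abs]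
      rw [h3] at h2
      have := norm_nonneg s
      have := abs_nonneg (m : ℝ)
      nlinarith
    calc C * (1 + ‖(m : ℂ) + s‖) ^ κ ≤ |C| * ((1 + |(m : ℝ)|) * (1 + ‖s‖)) ^ κ :=
          mul_le_mul (le_abs_self C) (pow_le_pow_left₀ (by positivity) e2 κ) (by positivity)
            (abs_nonneg C)
      _ = _ := by rw [mul_pow]; ring
  hL := fun s hs => by
    rw [h.LE_eq]
    exact he _ (by
      rw [Complex.add_re, Complex.intCast_re]
      linarith)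

/-- the deviation of the product over the primes from the one over the prime powers -/
noncomputable def wP (Q : ℕ → Polynomial ℂ) (D : ℕ) (m : ℤ) (ν : ℝ) (n : ℕ) : ℂ :=
  -cvs Q D m n - ((ν * Real.log 2 / 2 : ℝ) : ℂ) - Pc nP (alP Q D m) (n : ℝ)

theorem PD.w_lim (h : PD Q D m) {ν : ℝ}
    (hν : Tendsto (fun n : ℕ => ∑ p ∈ (Finset.Icc 1 n).filter (fun p => p.Prime ∧ n < p ^ 2),
      ((Q p).roots.map fun ρ => (ρ⁻¹ * (p : ℂ) ^ (-m)) ^ 2).sum) atTop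
      (𝓝 ((ν * Real.log 2 : ℝ) : ℂ))) :
    Tendsto (wP Q D m ν) atTop (𝓝 0) := by
  obtain ⟨C, hC⟩ := sharp_tailC h.cs
  have h1 : Tendsto (fun n : ℕ => cvs Q D m n + Pc nP (alP Q D m) (n : ℝ) +
      (∑ p ∈ (Finset.Icc 1 n).filter (fun p => p.Prime ∧ n < p ^ 2),
        ((Q p).roots.map fun ρ => (ρ⁻¹ * (p : ℂ) ^ (-m)) ^ 2).sum) / 2) atTop (𝓝 0) := by
    have h2 : Tendsto (fun n : ℕ => C * (n : ℝ) ^ (-(1 / 12 : ℝ))) atTop (𝓝 (C * 0)) :=
      ((tendsto_rpow_neg_atTop (by norm_num : (0 : ℝ) < 1 / 12)).comp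
        tendsto_natCast_atTop_atTop).const_mul C
    rw [mul_zero] at h2
    refine squeeze_zero_norm' ?_ h2
    filter_upwards [eventually_ge_atTop 1] with n hn
    have h3 := hC (n : ℝ) (by exact_mod_cast hn)
    rw [h.corr] at h3
    exact h3
  have h4 := (hν.div_const 2).sub h1
  rw [sub_zero] at h4
  have h5 := h4.sub_const ((ν * Real.log 2 / 2 : ℝ) : ℂ)
  have e : ((ν * Real.log 2 : ℝ) : ℂ) / 2 - ((ν * Real.log 2 / 2 : ℝ) : ℂ) = 0 := by
    push_cast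
    ring
  rw [e] at h5
  refine h5.congr fun n => ?_
  unfold wP
  ring

/-- the normalized inverse product -/
theorem exp_w (h : PD Q D m) (ν : ℝ) (n : ℕ) :
    exp (Pc nP (alP Q D m) (n : ℝ) + wP Q D m ν n) = (((2 : ℝ) ^ (-ν / 2) : ℝ) : ℂ) /
      ∏ p ∈ (Finset.Icc 1 n).filter (fun k => k.Prime), (Q p).eval ((p : ℂ) ^ (-m)) := by
  have e1 : Pc nP (alP Q D m) (n : ℝ) + wP Q D m ν n =
      ((-(ν * Real.log 2 / 2) : ℝ) : ℂ) - cvs Q D m n := by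
    unfold wP
    push_cast
    ring
  rw [e1, Complex.exp_sub, h.exp_cvs, ← Complex.ofReal_exp, Real.rpow_def_of_pos (by norm_num)]
  congr 3
  ring

/-- **bounded means** -/
theorem PD.bdd (h : PD Q D m) {η C : ℝ} {κ : ℕ} (hη : 0 < η)
    (hF : ∀ s : ℂ, (m : ℝ) - η < s.re → DifferentiableAt ℂ F s ∧ ‖F s‖ ≤ C * (1 + ‖s‖) ^ κ)
    (he : ∀ s : ℂ, (m : ℝ) + 1 / 2 < s.re →
      F s = ∏' p : Nat.Primes, ((Q p).eval (((p : ℕ) : ℂ) ^ (-s)))⁻¹) {ν : ℝ}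
    (hν : Tendsto (fun n : ℕ => ∑ p ∈ (Finset.Icc 1 n).filter (fun p => p.Prime ∧ n < p ^ 2),
      ((Q p).roots.map fun ρ => (ρ⁻¹ * (p : ℂ) ^ (-m)) ^ 2).sum) atTop
      (𝓝 ((ν * Real.log 2 : ℝ) : ℂ))) :
    ((∀ s : ℂ, (m : ℝ) < s.re → F s ≠ 0) ∧ F m ≠ 0) ↔ ∃ B : ℝ, ∀ᶠ M : ℕ in atTop,
      ∑ n ∈ Finset.Icc 1 M, |Real.log ‖∏ p ∈ (Finset.Icc 1 n).filter (fun k => k.Prime),
        (Q p).eval ((p : ℂ) ^ (-m))‖| / n ≤ B * Real.log M := by
  have H := h.mcc hη hF he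
  have t := bdd_iff H
  have e0 : (∀ s : ℂ, 0 < s.re → F (m + s) ≠ 0) ↔ ∀ s : ℂ, (m : ℝ) < s.re → F s ≠ 0 := by
    constructor
    · intro h1 s hs
      have h2 := h1 (s - m) (by
        rw [Complex.sub_re, Complex.intCast_re]
        linarith)
      rwa [add_sub_cancel] at h2
    · intro h1 s hs
      exact h1 _ (by
        rw [Complex.add_re, Complex.intCast_re]
        linarith)
  simp only [add_zero] at t
  rw [e0] at t
  rw [t]
  -- the bounded perturbation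
  have hw := h.w_lim hν
  obtain ⟨K, hK⟩ : ∃ K : ℝ, ∀ n, ‖wP Q D m ν n‖ ≤ K := by
    obtain ⟨K, hK⟩ := (Metric.isBounded_range_of_tendsto _ hw).exists_norm_le
    exact ⟨K, fun n => hK _ (mem_range_self n)⟩
  have hlog : ∀ n : ℕ, Real.log ‖∏ p ∈ (Finset.Icc 1 n).filter (fun k => k.Prime),
      (Q p).eval ((p : ℂ) ^ (-m))‖ = (cvs Q D m n).re := by
    intro n
    rw [← h.exp_cvs, Complex.norm_exp, Real.log_exp]
  have hd : ∀ n : ℕ, 1 ≤ n → |(Pc nP (alP Q D m) (n : ℝ)).re - -(cvs Q D m n).re| ≤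
      K + |ν * Real.log 2 / 2| := by
    intro n _
    have e1 : (Pc nP (alP Q D m) (n : ℝ)).re - -(cvs Q D m n).re =
        -((wP Q D m ν n).re + ν * Real.log 2 / 2) := by
      unfold wP
      simp only [Complex.sub_re, Complex.neg_re, Complex.ofReal_re]
      ring
    rw [e1, abs_neg]
    refine (abs_add_le _ _).trans ?_
    have := (Complex.abs_re_le_norm (wP Q D m ν n)).trans (hK n)
    linarith
  simp only [hlog]
  constructor
  · intro h1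
    have h2 := bdd_pert hd h1
    simpa only [abs_neg] using h2
  · intro h1
    refine bdd_pert (f := fun n => -(cvs Q D m n).re) (K := K + |ν * Real.log 2 / 2|)
      (fun n hn => ?_) (by simpa only [abs_neg] using h1)
    rw [abs_sub_comm]
    exact hd n hn

/-- **the limit** -/
theorem PD.near (h : PD Q D m) {η C : ℝ} {κ : ℕ} (hη : 0 < η)
    (hF : ∀ s : ℂ, (m : ℝ) - η < s.re → DifferentiableAt ℂ F s ∧ ‖F s‖ ≤ C * (1 + ‖s‖) ^ κ)
    (he : ∀ s : ℂ, (m : ℝ) + 1 / 2 < s.re →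
      F s = ∏' p : Nat.Primes, ((Q p).eval (((p : ℕ) : ℂ) ^ (-s)))⁻¹) {ν : ℝ}
    (hν : Tendsto (fun n : ℕ => ∑ p ∈ (Finset.Icc 1 n).filter (fun p => p.Prime ∧ n < p ^ 2),
      ((Q p).roots.map fun ρ => (ρ⁻¹ * (p : ℂ) ^ (-m)) ^ 2).sum) atTop
      (𝓝 ((ν * Real.log 2 : ℝ) : ℂ)))
    (hRH : ∀ s : ℂ, (m : ℝ) < s.re → F s ≠ 0) {ε : ℝ} (hε : 0 < ε) :
    AA fun n => ‖(((2 : ℝ) ^ (-ν / 2) : ℝ) : ℂ) /
      (∏ p ∈ (Finset.Icc 1 n).filter (fun k => k.Prime), (Q p).eval ((p : ℂ) ^ (-m))) - F m‖ < ε := by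
  have H := h.mcc hη hF he
  have h1 := near_corr H (fun s hs => hRH _ (by
    rw [Complex.add_re, Complex.intCast_re]
    linarith)) (h.w_lim hν) hε
  refine h1.mono fun n hn => ?_
  rw [exp_w h, add_zero] at hn
  exact hn

/-- **approximation by lattice points** -/
theorem lattice_iff {E : Type} [Field E] [NumberField E] {Z c : (E →+* ℂ) → ℂ}
    {T : (E →+* ℂ) → ℕ → ℂ} (hc : ∀ τ, c τ ≠ 0)
    (h : ∀ τ, ∀ ε : ℝ, 0 < ε → AA fun n => ‖T τ n - Z τ‖ < ε) :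
    (∃ e : E, ∀ τ : E →+* ℂ, Z τ = τ e * c τ) ↔ ∃ N : ℕ, 1 ≤ N ∧ ∀ ε : ℝ, 0 < ε →
      AA fun n => ∃ a : NumberField.RingOfIntegers E, ∀ τ : E →+* ℂ,
        ‖N * (T τ n / c τ) - τ (a : E)‖ < ε := by
  have hn : ∀ (N : ℕ) {δ : ℝ}, 1 ≤ N → 0 < δ →
      AA fun n => ∀ τ : E →+* ℂ, ‖N * (T τ n / c τ) - N * (Z τ / c τ)‖ < δ := by
    intro N δ hN hδ
    refine AA.all fun τ => ?_
    have hN0 : (0 : ℝ) < N := by exact_mod_cast hN
    have hc0 : 0 < ‖c τ‖ := norm_pos_iff.2 (hc τ)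
    refine (h τ (δ * ‖c τ‖ / N) (by positivity)).mono fun n hn => ?_
    have e1 : (N : ℂ) * (T τ n / c τ) - N * (Z τ / c τ) = N * ((T τ n - Z τ) / c τ) := by ring
    rw [e1, norm_mul, norm_div, Complex.norm_natCast]
    rw [lt_div_iff₀ hN0] at hn
    rw [mul_div_assoc', div_lt_iff₀ hc0]
    linarith
  constructor
  · rintro ⟨e, he⟩
    obtain ⟨N, a, hN, ha⟩ := exists_denom e
    refine ⟨N, hN, fun ε hε => (hn N hN hε).mono fun n h1 => ⟨a, fun τ => ?_⟩⟩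
    have h2 := h1 τ
    have h3 : (N : ℂ) * (Z τ / c τ) = τ (a : E) := by
      rw [he τ, mul_div_assoc, div_self (hc τ), mul_one, ← ha, map_mul, map_natCast]
    rwa [h3] at h2
  · rintro ⟨N, hN, h1⟩
    have hN0 : (0 : ℝ) < N := by exact_mod_cast hN
    obtain ⟨a, ha⟩ := lattice_limit (E := E) (fun τ => (N : ℂ) * (Z τ / c τ)) fun ε hε => by
      obtain ⟨n, -, h2, a, h3⟩ := ((hn N hN (half_pos hε)).and (h1 (ε / 2) (half_pos hε))).exists_ge 0
      refine ⟨a, fun τ => ?_⟩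
      have h4 := h2 τ
      have h5 := h3 τ
      have e1 : (N : ℂ) * (Z τ / c τ) - τ (a : E) =
          ((N : ℂ) * (T τ n / c τ) - τ (a : E)) - ((N : ℂ) * (T τ n / c τ) - N * (Z τ / c τ)) := by
        ring
      rw [e1]
      refine (norm_sub_le _ _).trans_lt ?_
      linarith
    refine ⟨(a : E) / N, fun τ => ?_⟩
    have h2 := ha τ
    have hNc : (N : ℂ) ≠ 0 := by exact_mod_cast hN0.ne'
    have h3 := hc τ
    rw [map_div₀, map_natCast, ← h2]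
    field_simp

end Pool.Agent.TH270.MC
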