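import Pool.Agent.TH270.MS.Fwd

/-!
# The mean square theorem for general Laplace transforms, complex coefficients
-/

set_option autoImplicit false

open MeasureTheory Filter Topology Set Complex
open scoped ENNReal
open Pool.Agent.TH942.SL
open Pool.Agent.TH942.RZ
open Pool.Agent.TH270.MS

namespace Pool.Agent.TH270.MC

variable {σ S₀ A : ℝ} {Λ Ψ : ℂ → ℂ} {κ : ℕ} {C : ℝ}

/-- the logarithm on the right half plane -/
theorem exists_Lam (hσ : 0 < σ) (hΨ : ∀ s : ℂ, 0 < s.re → DifferentiableAt ℂ Ψ s)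
    (hne : ∀ s : ℂ, 0 < s.re → Ψ s ≠ 0) (hΛ : ∀ s : ℂ, σ < s.re → DifferentiableAt ℂ Λ s)
    (hexp : ∀ s : ℂ, σ < s.re → exp (-Λ s) = Ψ s) :
    ∃ L : ℂ → ℂ, (∀ s : ℂ, 0 < s.re → HasDerivAt L (deriv Ψ s / Ψ s) s) ∧
      (∀ s : ℂ, 0 < s.re → exp (L s) = Ψ s) ∧ ∀ s : ℂ, σ < s.re → L s = -Λ s := by
  obtain ⟨L₀, h1, h2⟩ := exists_log (HP_open 0) (HP_convex 0) (Ψ := Ψ)
    (fun z hz => (hΨ z hz).differentiableWithinAt) hne
  set z₀ : ℂ := ((σ + 1 : ℝ) : ℂ) with hz₀
  have hz₀' : σ < z₀.re := by rw [hz₀, Complex.ofReal_re]; linarith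
  set κ : ℂ := -Λ z₀ - L₀ z₀ with hκ
  have h3 : ∀ s : ℂ, σ < s.re → L₀ s - (-Λ s) = L₀ z₀ - (-Λ z₀) := by
    intro s hs
    refine log_unique (U := HP σ) (HP_convex σ) (f := L₀) (g := fun s => -Λ s)
      (f' := fun s => deriv Ψ s / Ψ s) (g' := fun s => -deriv Λ s)
      (fun z hz => h1 z (hσ.trans hz)) (fun z hz => ?_) (fun z hz => ?_) (HP_open σ) hs hz₀'
    · exact (hΛ z hz).hasDerivAt.neg
    · rw [h2 z (hσ.trans hz)]
      exact (hexp z hz).symm
  have hκ1 : exp κ = 1 := by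
    have h4 : exp (L₀ z₀) = exp (-Λ z₀) := by
      rw [h2 z₀ (hσ.trans hz₀'), hexp z₀ hz₀']
    rw [hκ, Complex.exp_sub, ← h4, div_self (exp_ne_zero _)]
  refine ⟨fun s => L₀ s + κ, fun s hs => (h1 s hs).add_const κ, fun s hs => ?_, fun s hs => ?_⟩
  · rw [Complex.exp_add, hκ1, mul_one, h2 s hs]
  · have h4 := h3 s hs
    simp only
    rw [hκ]
    linear_combination h4

/-- the logarithm satisfies the one-sided bounds -/
theorem exists_LD (hσ : 0 < σ) (hΨ : ∀ s : ℂ, 0 < s.re → DifferentiableAt ℂ Ψ s)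
    (hne : ∀ s : ℂ, 0 < s.re → Ψ s ≠ 0) (hΛ : ∀ s : ℂ, σ < s.re → DifferentiableAt ℂ Λ s)
    (hexp : ∀ s : ℂ, σ < s.re → exp (-Λ s) = Ψ s)
    (hgrow : ∀ s : ℂ, 0 < s.re → ‖Ψ s‖ ≤ C * (1 + ‖s‖) ^ κ * (1 + 1 / s.re) ^ κ)
    (hS : 0 ≤ S₀) (hΛb : ∀ s : ℂ, σ + 1 ≤ s.re → ‖Λ s‖ ≤ S₀) :
    ∃ (L : ℂ → ℂ) (A₀ : ℝ), LD L A₀ (σ + 1) ∧
      (∀ s : ℂ, 0 < s.re → HasDerivAt L (deriv Ψ s / Ψ s) s) ∧
      (∀ s : ℂ, 0 < s.re → exp (L s) = Ψ s) ∧ ∀ s : ℂ, σ < s.re → L s = -Λ s := by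
  obtain ⟨L, h1, h2, h3⟩ := exists_Lam hσ hΨ hne hΛ hexp
  set lc : ℝ := Real.log (|C| + 1) with hlc
  have hlc0 : 0 ≤ lc := Real.log_nonneg (by linarith [abs_nonneg C])
  set ls : ℝ := Real.log (σ + 2) with hls
  have hls0 : 0 ≤ ls := Real.log_nonneg (by linarith)
  have hκ0 : (0 : ℝ) ≤ κ := Nat.cast_nonneg κ
  have hκls : 0 ≤ κ * ls := mul_nonneg hκ0 hls0
  set A₀ : ℝ := S₀ + lc + κ * ls + κ + 1 with hA₀
  have hA0 : 0 < A₀ := by linarith
  have hfar : ∀ s : ℂ, σ + 1 ≤ s.re → ‖L s‖ ≤ A₀ := by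
    intro s hs
    rw [h3 s (by linarith), norm_neg]
    have := hΛb s hs
    linarith
  refine ⟨L, A₀, ⟨hA0, by linarith, fun s hs => (h1 s hs).differentiableAt, fun s hs => ?_, hfar⟩,
    h1, h2, h3⟩
  have l1 : 0 ≤ Real.log (1 + |s.im|) := Real.log_nonneg (by linarith [abs_nonneg s.im])
  have l2 : 0 ≤ Real.log (1 + 1 / s.re) := Real.log_nonneg (by
    have : 0 ≤ 1 / s.re := by positivity
    linarith)
  by_cases hc : σ + 1 ≤ s.re
  · have e1 := (Complex.re_le_norm (L s)).trans (hfar s hc)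
    have e2 : 0 ≤ A₀ * (Real.log (1 + |s.im|) + Real.log (1 + 1 / s.re)) := by positivity
    nlinarith
  · push Not at hc
    have hΨ0 : 0 < ‖Ψ s‖ := norm_pos_iff.2 (hne s hs)
    have e1 : (L s).re = Real.log ‖Ψ s‖ := by
      rw [← h2 s hs, Complex.norm_exp, Real.log_exp]
    have e2 : ‖Ψ s‖ ≤ (|C| + 1) * ((σ + 2) * (1 + |s.im|)) ^ κ * (1 + 1 / s.re) ^ κ := by
      refine (hgrow s hs).trans ?_
      have e3 : 1 + ‖s‖ ≤ (σ + 2) * (1 + |s.im|) := by
        have e4 := Complex.norm_le_abs_re_add_abs_im s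
        rw [abs_of_pos hs] at e4
        have := abs_nonneg s.im
        nlinarith
      have e5 : C ≤ |C| + 1 := by linarith [le_abs_self C]
      have e6 : 0 ≤ 1 + ‖s‖ := by positivity
      have e7 : C * (1 + ‖s‖) ^ κ ≤ (|C| + 1) * ((σ + 2) * (1 + |s.im|)) ^ κ :=
        mul_le_mul e5 (pow_le_pow_left₀ e6 e3 κ) (by positivity) (by positivity)
      exact mul_le_mul_of_nonneg_right e7 (by positivity)
    rw [e1]
    have hne1 : (|C| + 1 : ℝ) ≠ 0 := by positivity
    have hne2 : (σ + 2 : ℝ) ≠ 0 := by positivity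
    have hne3 : (1 + |s.im| : ℝ) ≠ 0 := by positivity
    have hne4 : (1 + 1 / s.re : ℝ) ≠ 0 := by positivity
    have e3 := Real.log_le_log hΨ0 e2
    rw [Real.log_mul (by positivity) (by positivity), Real.log_mul hne1 (by positivity),
      Real.log_pow, Real.log_mul hne2 hne3, Real.log_pow] at e3
    have e4 : lc + κ * (ls + Real.log (1 + |s.im|)) + κ * Real.log (1 + 1 / s.re) ≤
        A₀ * (1 + Real.log (1 + |s.im|) + Real.log (1 + 1 / s.re)) := by
      have e5 : lc + κ * ls ≤ A₀ := by linarith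
      have e6 : (κ : ℝ) ≤ A₀ := by linarith
      have e7 : κ * Real.log (1 + |s.im|) ≤ A₀ * Real.log (1 + |s.im|) :=
        mul_le_mul_of_nonneg_right e6 l1
      have e8 : κ * Real.log (1 + 1 / s.re) ≤ A₀ * Real.log (1 + 1 / s.re) :=
        mul_le_mul_of_nonneg_right e6 l2
      nlinarith
    linarith

/-- **The mean square theorem.** -/
theorem fwd {G₀ g : ℂ → ℂ} {k p κ : ℕ} {η C C₁ S₀ : ℝ} {Λ : ℂ → ℂ} {E : ℝ → ℂ} (hσ : 0 < σ)
    (hη : 0 < η)
    (hEm : Measurable E) (hE0 : ∀ u : ℝ, u ≤ 0 → E u = 0) (hC₁ : 0 ≤ C₁)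
    (hEb : ∀ u : ℝ, ‖E u‖ ≤ C₁ * Real.exp (σ * u))
    (hEl : ∀ s : ℂ, σ < s.re → ∫ u : ℝ, E u * exp (-(s * u)) =
      (Λ s + (((p : ℝ) - k : ℝ) : ℂ) * log (1 - exp (-s))) / s)
    (hΛ : ∀ s : ℂ, σ < s.re → DifferentiableAt ℂ Λ s)
    (hS : 0 ≤ S₀) (hΛb : ∀ s : ℂ, σ + 1 ≤ s.re → ‖Λ s‖ ≤ S₀)
    (hG : ∀ s : ℂ, -η < s.re → DifferentiableAt ℂ G₀ s)
    (hgrow : ∀ s : ℂ, -η < s.re → ‖G₀ s‖ ≤ C * (1 + ‖s‖) ^ κ)
    (hexp : ∀ s : ℂ, σ < s.re → s ^ k * exp (-Λ s) = G₀ s)
    (hg : AnalyticAt ℂ g 0) (hg0 : g 0 ≠ 0) (near : ∀ᶠ s in 𝓝 (0 : ℂ), G₀ s = s ^ p * g s)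
    (hne : ∀ s : ℂ, 0 < s.re → G₀ s ≠ 0) :
    ∃ c' : ℂ, g 0 = exp (-c') ∧
      ∫⁻ u : ℝ, ‖E u - (Ioi (0 : ℝ)).indicator (fun _ => c') u‖ₑ ^ 2 < ⊤ := by
  have hs0 : ∀ s : ℂ, 0 < s.re → s ≠ 0 := fun s hs => by rintro rfl; simp at hs
  set r : ℝ := (p : ℝ) - k with hr
  have hC0 : 0 ≤ C := by
    have := (norm_nonneg _).trans (hgrow 0 (by simpa using hη))
    simpa using this
  -- the logarithm of `Ψ = G₀ / s^k`
  set Ψ : ℂ → ℂ := fun s => G₀ s / s ^ k with hΨ
  have hΨd : ∀ s : ℂ, 0 < s.re → DifferentiableAt ℂ Ψ s := fun s hs =>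
    (hG s (by linarith)).div (differentiableAt_id.pow k) (pow_ne_zero _ (hs0 s hs))
  have hΨn : ∀ s : ℂ, 0 < s.re → Ψ s ≠ 0 := fun s hs =>
    div_ne_zero (hne s hs) (pow_ne_zero _ (hs0 s hs))
  have hΨg : ∀ s : ℂ, 0 < s.re → ‖Ψ s‖ ≤ C * (1 + ‖s‖) ^ (κ + k) * (1 + 1 / s.re) ^ (κ + k) := by
    intro s hs
    rw [hΨ]
    simp only
    rw [norm_div, norm_pow, div_eq_mul_inv]
    have e1 := hgrow s (by linarith)
    have e2 : (‖s‖ ^ k)⁻¹ ≤ (1 + 1 / s.re) ^ k := by
      rw [← inv_pow]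
      apply pow_le_pow_left₀ (by positivity)
      have : ‖s‖⁻¹ ≤ s.re⁻¹ := inv_anti₀ hs (Complex.re_le_norm s)
      rw [one_div]
      linarith
    have e3 : (1 + ‖s‖) ^ κ ≤ (1 + ‖s‖) ^ (κ + k) :=
      pow_le_pow_right₀ (by linarith [norm_nonneg s]) (by omega)
    have e4 : (1 + 1 / s.re) ^ k ≤ (1 + 1 / s.re) ^ (κ + k) := by
      refine pow_le_pow_right₀ ?_ (by omega)
      have : 0 ≤ 1 / s.re := by positivity
      linarith
    exact mul_le_mul (e1.trans (mul_le_mul_of_nonneg_left e3 hC0)) (e2.trans e4) (by positivity)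
      (by positivity)
  obtain ⟨L, A₀, hLD, hLd, hLe, hLf⟩ := exists_LD hσ hΨd hΨn hΛ (fun s hs => by
      have h1 : s ≠ 0 := hs0 s (hσ.trans hs)
      rw [hΨ]
      simp only
      rw [← hexp s hs]
      field_simp) hΨg hS hΛb
  -- the logarithm of `G₀`
  set L1 : ℂ → ℂ := fun s => L s + k * log s with hL1
  have hlogd : ∀ s : ℂ, 0 < s.re → DifferentiableAt ℂ (fun s => log s) s := fun s hs =>
    differentiableAt_id.clog (Or.inl hs)
  have hL1d : ∀ s : ℂ, 0 < s.re → DifferentiableAt ℂ L1 s := fun s hs =>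
    (hLd s hs).differentiableAt.add ((hlogd s hs).const_mul _)
  have hL1e : ∀ s : ℂ, 0 < s.re → exp (L1 s) = G₀ s := by
    intro s hs
    have h1 := hs0 s hs
    rw [hL1]
    simp only
    rw [Complex.exp_add, hLe s hs, Complex.exp_nat_mul, Complex.exp_log h1, hΨ]
    simp only
    field_simp
  have hU : IsOpen {s : ℂ | 0 < s.re} := isOpen_lt continuous_const Complex.continuous_re
  have hL1h : ∀ s : ℂ, 0 < s.re → HasDerivAt L1 (deriv G₀ s / G₀ s) s := by
    intro s hs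
    have h1 := (hL1d s hs).hasDerivAt
    have h2 : G₀ =ᶠ[𝓝 s] fun w => exp (L1 w) := by
      filter_upwards [hU.mem_nhds hs] with w hw
      exact (hL1e w hw).symm
    have h3 : deriv G₀ s = exp (L1 s) * deriv L1 s := by
      rw [h2.deriv_eq]
      exact h1.cexp.deriv
    rw [h3, ← hL1e s hs, mul_div_cancel_left₀ _ (Complex.exp_ne_zero _)]
    exact h1
  obtain ⟨r₀, Γ, hr₀, hΓc, hΓ0, hΓn⟩ := log_near hL1e hL1h hg hg0 near
  -- the continuation of the Laplace transform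
  set c' : ℂ := -Γ 0 with hc'
  set H : ℂ → ℂ := fun s => (-L s + r * log (1 - exp (-s)) - c') / s with hH
  have hlog1d : ∀ s : ℂ, 0 < s.re → DifferentiableAt ℂ (fun s => log (1 - exp (-s))) s :=
    fun s hs => DifferentiableAt.clog (by fun_prop) (slit_one_sub hs)
  have hHd : ∀ s : ℂ, 0 < s.re → DifferentiableAt ℂ H s := fun s hs =>
    ((((hLd s hs).differentiableAt.neg).add ((hlog1d s hs).const_mul _)).sub_const _).div
      differentiableAt_id (hs0 s hs)
  -- the function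
  set kf : ℝ → ℂ := fun u => E u - (Ioi (0 : ℝ)).indicator (fun _ => c') u with hkf
  have hkm : Measurable kf := hEm.sub (measurable_const.indicator measurableSet_Ioi)
  have hk0 : ∀ u : ℝ, u ≤ 0 → kf u = 0 := by
    intro u hu
    rw [hkf]
    simp only
    rw [hE0 u hu, indicator_of_notMem (by simpa using hu)]
    simp
  obtain ⟨C₁', hC₁', hkb⟩ : ∃ C₁' : ℝ, 0 ≤ C₁' ∧ ∀ u : ℝ, ‖kf u‖ ≤ C₁' * Real.exp (σ * u) := by
    refine ⟨C₁ + ‖c'‖, by positivity, fun u => ?_⟩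
    rcases le_or_gt u 0 with hu | hu
    · rw [hk0 u hu, norm_zero]
      positivity
    · rw [hkf]
      simp only
      rw [indicator_of_mem (show u ∈ Ioi (0 : ℝ) from hu)]
      refine (norm_sub_le _ _).trans ?_
      have e1 := hEb u
      have e2 : 1 ≤ Real.exp (σ * u) := Real.one_le_exp (mul_nonneg hσ.le hu.le)
      nlinarith [norm_nonneg c']
  have hkx : ∀ x : ℝ, σ < x → ∀ u : ℝ, ‖kf u * exp (-(x * u))‖ ≤
      (Ici (0 : ℝ)).indicator (fun u => C₁' * Real.exp (-((x - σ) * u))) u := by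
    intro x hx u
    have e0 : ‖exp (-((x : ℂ) * u))‖ = Real.exp (-(x * u)) := by
      rw [norm_exp_neg, Complex.ofReal_re]
    rcases lt_or_ge u 0 with hu | hu
    · rw [hk0 u hu.le, zero_mul, norm_zero, indicator_of_notMem (by simpa using hu)]
    · rw [indicator_of_mem (show u ∈ Ici (0 : ℝ) from hu), norm_mul, e0]
      calc ‖kf u‖ * Real.exp (-(x * u)) ≤ (C₁' * Real.exp (σ * u)) * Real.exp (-(x * u)) :=
            mul_le_mul_of_nonneg_right (hkb u) (Real.exp_pos _).le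
        _ = C₁' * (Real.exp (σ * u) * Real.exp (-(x * u))) := by ring
        _ = _ := by
          rw [← Real.exp_add]
          ring_nf
  have hkme : ∀ x : ℝ, Measurable fun u : ℝ => kf u * exp (-(x * u)) := fun x =>
    hkm.mul (by fun_prop)
  have hI : ∀ {y : ℝ}, 0 < y → ∀ C₂ : ℝ,
      Integrable ((Ici (0 : ℝ)).indicator (fun u => C₂ * Real.exp (-(y * u)))) := by
    intro y hy C₂
    rw [integrable_indicator_iff measurableSet_Ici, integrableOn_Ici_iff_integrableOn_Ioi]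
    have h1 : IntegrableOn (fun u : ℝ => Real.exp (-y * u)) (Ioi 0) :=
      integrableOn_exp_mul_Ioi (a := -y) (by linarith) 0
    have h2 : IntegrableOn (fun u : ℝ => C₂ * Real.exp (-y * u)) (Ioi 0) := h1.const_mul C₂
    refine h2.congr_fun (fun u _ => ?_) measurableSet_Ioi
    simp only [neg_mul]
  have hk1 : ∀ x : ℝ, σ < x → Integrable fun u : ℝ => kf u * exp (-(x * u)) := fun x hx =>
    (hI (by linarith : 0 < x - σ) C₁').mono' (hkme x).aestronglyMeasurable
      (Eventually.of_forall (hkx x hx))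
  have hk2 : ∀ x : ℝ, σ < x → MemLp (fun u : ℝ => kf u * exp (-(x * u))) 2 := by
    intro x hx
    rw [memLp_two_iff_integrable_sq_norm (hkme x).aestronglyMeasurable]
    refine (hI (by linarith : 0 < 2 * (x - σ)) (C₁' ^ 2)).mono'
      ((hkme x).norm.pow_const 2).aestronglyMeasurable (Eventually.of_forall fun u => ?_)
    rw [Real.norm_of_nonneg (by positivity)]
    refine (pow_le_pow_left₀ (norm_nonneg _) (hkx x hx u) 2).trans (le_of_eq ?_)
    by_cases hu : u ∈ Ici (0 : ℝ)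
    · rw [indicator_of_mem hu, indicator_of_mem hu, mul_pow, ← Real.exp_nat_mul]
      congr 2
      push_cast
      ring
    · rw [indicator_of_notMem hu, indicator_of_notMem hu]
      norm_num
  have hHk : ∀ s : ℂ, σ < s.re → H s = ∫ u : ℝ, kf u * exp (-(s * u)) := by
    intro s hs
    have hs1 : 0 < s.re := hσ.trans hs
    have i1 : Integrable fun u : ℝ => E u * exp (-(s * u)) := by
      refine (hI (by linarith : 0 < s.re - σ) C₁).mono'
        (hEm.mul (by fun_prop)).aestronglyMeasurable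
        (Eventually.of_forall fun u => ?_)
      rw [norm_mul, norm_exp_neg]
      rcases lt_or_ge u 0 with hu | hu
      · rw [hE0 u hu.le, norm_zero, zero_mul, indicator_of_notMem (by simpa using hu)]
      · rw [indicator_of_mem (show u ∈ Ici (0 : ℝ) from hu)]
        calc _ ≤ (C₁ * Real.exp (σ * u)) * Real.exp (-(s.re * u)) :=
              mul_le_mul_of_nonneg_right (hEb u) (Real.exp_pos _).le
          _ = C₁ * (Real.exp (σ * u) * Real.exp (-(s.re * u))) := by ring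
          _ = _ := by
            rw [← Real.exp_add]
            ring_nf
    have i2 : Integrable fun u : ℝ => c' * (Ici (0 : ℝ)).indicator (fun T : ℝ => exp (-(s * T))) u :=
      (integrable_step hs1 0).const_mul _
    have e0 : ∀ᵐ u : ℝ, kf u * exp (-(s * u)) = E u * exp (-(s * u)) -
        c' * (Ici (0 : ℝ)).indicator (fun T : ℝ => exp (-(s * T))) u := by
      have h0 : ∀ᵐ u : ℝ, u ≠ 0 := by
        rw [ae_iff]
        simp
      filter_upwards [h0] with u hu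
      rw [hkf]
      simp only
      by_cases h : 0 < u
      · rw [indicator_of_mem (show u ∈ Ioi (0 : ℝ) from h),
          indicator_of_mem (show u ∈ Ici (0 : ℝ) from h.le)]
        ring
      · have h' : u < 0 := lt_of_le_of_ne (not_lt.1 h) hu
        rw [indicator_of_notMem (show u ∉ Ioi (0 : ℝ) from h),
          indicator_of_notMem (show u ∉ Ici (0 : ℝ) from not_le.2 h')]
        ring
    rw [integral_congr_ae e0, integral_sub i1 i2, integral_const_mul, hEl s hs,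
      integral_step hs1, hH]
    simp only [Complex.ofReal_zero, mul_zero, neg_zero, Complex.exp_zero]
    rw [hLf s hs]
    ring
  -- boundedness on strips
  have hbd : ∀ δ' : ℝ, 0 < δ' → ∃ B : ℝ, ∀ s : ℂ, δ' ≤ s.re → s.re ≤ σ + 1 → ‖H s‖ ≤ B := by
    intro δ' hδ'
    obtain ⟨B, hB, hBB⟩ := hLD.pow hδ' (ε := 1) one_pos
    set B2 : ℝ := |r| * (|Real.log (1 - Real.exp (-δ'))| + 1 + Real.pi) + ‖c'‖ with hB2
    have hpi := Real.pi_pos
    have hB20 : 0 ≤ B2 := by positivity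
    refine ⟨(B + B2) * (1 / δ' + 1), fun s hs _ => ?_⟩
    have hs1 : 0 < s.re := hδ'.trans_le hs
    have hn : 0 < ‖s‖ := norm_pos_iff.2 (hs0 s hs1)
    rw [hH]
    simp only
    rw [norm_div, div_le_iff₀ hn]
    have e1 := hBB s hs
    rw [Real.rpow_one] at e1
    have e2 := log_one_sub_bd hδ' hs
    have e3 : ‖-L s + r * log (1 - exp (-s)) - c'‖ ≤ ‖L s‖ + |r| * ‖log (1 - exp (-s))‖ + ‖c'‖ := by
      refine (norm_sub_le _ _).trans ?_
      gcongr
      refine (norm_add_le _ _).trans ?_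
      rw [norm_neg, norm_mul, Complex.norm_real, Real.norm_eq_abs]
    have e4 := mul_le_mul_of_nonneg_left e2 (abs_nonneg r)
    have e5 : 1 ≤ 1 / δ' * ‖s‖ := by
      rw [one_div, inv_mul_eq_div, one_le_div hδ']
      exact hs.trans (Complex.re_le_norm s)
    have e6 : |s.im| ≤ ‖s‖ := Complex.abs_im_le_norm s
    have e7 : B * (1 + |s.im|) + B2 ≤ (B + B2) * (1 / δ' + 1) * ‖s‖ := by
      calc B * (1 + |s.im|) + B2 ≤ B * (1 / δ' * ‖s‖ + ‖s‖) + B2 * (1 / δ' * ‖s‖ + ‖s‖) := by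
            have : (1 : ℝ) ≤ 1 / δ' * ‖s‖ + ‖s‖ := by linarith
            have h8 : B * (1 + |s.im|) ≤ B * (1 / δ' * ‖s‖ + ‖s‖) :=
              mul_le_mul_of_nonneg_left (by linarith) hB
            have h9 : B2 * 1 ≤ B2 * (1 / δ' * ‖s‖ + ‖s‖) := mul_le_mul_of_nonneg_left this hB20
            linarith
        _ = _ := by ring
    linarith
  -- the bound near zero
  obtain ⟨r₁, Cn, hr₁, hCn, hnear⟩ : ∃ r₁ Cn : ℝ, 0 < r₁ ∧ 0 ≤ Cn ∧ ∀ s : ℂ, 0 < s.re → ‖s‖ < r₁ →
      ‖H s‖ ≤ Cn := by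
    have hΓat : ContinuousAt Γ 0 := hΓc.continuousAt (Metric.ball_mem_nhds 0 hr₀)
    obtain ⟨ρ₁, hρ₁, hb1⟩ := Metric.continuousAt_iff.1 hΓat (1 / 2) (by norm_num)
    obtain ⟨Cg, hCg⟩ := hg.differentiableAt.isBigO_sub.bound
    obtain ⟨ρ₂, hρ₂, hb2⟩ := Metric.eventually_nhds_iff_ball.1 (hCg.and near)
    refine ⟨min (min r₀ ρ₁) (min ρ₂ (1 / 2)), |r| * 2 + 2 * (|Cg| / ‖g 0‖), by positivity,
      by positivity, fun s hs hsn => ?_⟩
    have hn : 0 < ‖s‖ := norm_pos_iff.2 (hs0 s hs)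
    have m1 : ‖s‖ < r₀ := hsn.trans_le ((min_le_left _ _).trans (min_le_left _ _))
    have m2 : ‖s‖ < ρ₁ := hsn.trans_le ((min_le_left _ _).trans (min_le_right _ _))
    have m3 : ‖s‖ < ρ₂ := hsn.trans_le ((min_le_right _ _).trans (min_le_left _ _))
    have m4 : ‖s‖ < 1 / 2 := hsn.trans_le ((min_le_right _ _).trans (min_le_right _ _))
    have e1 := hΓn s hs m1
    have e2 : ‖Γ s - Γ 0‖ ≤ 1 / 2 := by
      have := hb1 (x := s) (by rwa [dist_zero_right])
      rw [dist_eq_norm] at this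
      exact this.le
    obtain ⟨e3, e4⟩ := hb2 s (by rwa [Metric.mem_ball, dist_zero_right])
    have e5 : exp (Γ s - Γ 0) = g s / g 0 := by
      have h1 : exp (L1 s) = s ^ p * exp (Γ s) := by
        rw [e1, Complex.exp_add, Complex.exp_nat_mul, Complex.exp_log (hs0 s hs)]
      rw [hL1e s hs, e4] at h1
      have h2 := mul_left_cancel₀ (pow_ne_zero p (hs0 s hs)) h1
      rw [Complex.exp_sub, hΓ0, ← h2]
    have e6 : ‖Γ s - Γ 0‖ ≤ 2 * (|Cg| / ‖g 0‖) * ‖s‖ := by
      have h1 := exp_small e2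
      rw [e5] at h1
      have h2 : ‖g s / g 0 - 1‖ ≤ |Cg| / ‖g 0‖ * ‖s‖ := by
        have h3 : g s / g 0 - 1 = (g s - g 0) / g 0 := by
          field_simp
        rw [h3, norm_div, div_mul_eq_mul_div]
        apply div_le_div_of_nonneg_right _ (norm_nonneg _)
        rw [sub_zero] at e3
        exact e3.trans (mul_le_mul_of_nonneg_right (le_abs_self _) (norm_nonneg _))
      linarith
    have e7 := log_one_sub_c hs m4.le
    have e8 : -L s + r * log (1 - exp (-s)) - c' =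
        r * (log (1 - exp (-s)) - log s) - (Γ s - Γ 0) := by
      have h1 : L s = p * log s + Γ s - k * log s := by
        rw [← e1, hL1]
        ring
      rw [h1, hc', hr]
      push_cast
      ring
    rw [hH]
    simp only
    rw [e8, norm_div, div_le_iff₀ hn]
    refine (norm_sub_le _ _).trans ?_
    rw [norm_mul, Complex.norm_real, Real.norm_eq_abs]
    have e9 := mul_le_mul_of_nonneg_left e7 (abs_nonneg r)
    calc |r| * ‖log (1 - exp (-s)) - log s‖ + ‖Γ s - Γ 0‖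
        ≤ |r| * (2 * ‖s‖) + 2 * (|Cg| / ‖g 0‖) * ‖s‖ := by linarith
      _ = _ := by ring
  -- the three square means
  have ha : 1 ≤ σ + 1 := by linarith
  have hmL : ∀ T : ℝ, ‖L1 (((σ + 1 : ℝ) : ℂ) + T * I)‖ ≤
      (A₀ + k * (Real.log (2 * (σ + 1)) + 4)) * (1 + Real.log (1 + |T|)) := by
    intro T
    have l0 : 0 ≤ Real.log (1 + |T|) := Real.log_nonneg (by linarith [abs_nonneg T])
    have e1 := hLD.far (((σ + 1 : ℝ) : ℂ) + T * I) (by simp)
    have e2 := log_line ha T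
    rw [hL1]
    simp only
    refine (norm_add_le _ _).trans ?_
    rw [norm_mul, Complex.norm_natCast]
    have e3 := mul_le_mul_of_nonneg_left e2 (Nat.cast_nonneg k : (0 : ℝ) ≤ k)
    have e4 : 0 ≤ A₀ * Real.log (1 + |T|) := mul_nonneg hLD.A0.le l0
    calc _ ≤ A₀ + k * ((Real.log (2 * (σ + 1)) + 4) * (1 + Real.log (1 + |T|))) :=
          add_le_add e1 e3
      _ ≤ _ := by nlinarith
  have hl2 : 0 ≤ Real.log (2 * (σ + 1)) := Real.log_nonneg (by linarith)
  obtain ⟨K1, hK1, hb1⟩ := glob_L2 (F := G₀) (L := L1) (a := σ + 1) hη ha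
    (by have := hLD.A0; positivity : 0 ≤ A₀ + k * (Real.log (2 * (σ + 1)) + 4)) hG hgrow hL1d hL1e hmL
  obtain ⟨K2, hK2, hb2⟩ := glob_L2 (F := fun s => s) (L := fun s => log s) (a := σ + 1) (C := 1)
    (κ := 1) hη ha (by positivity : 0 ≤ Real.log (2 * (σ + 1)) + 4)
    (fun s _ => differentiableAt_id)
    (fun s _ => by rw [one_mul, pow_one]; linarith) hlogd
    (fun s hs => Complex.exp_log (hs0 s hs)) (fun T => log_line ha T)
  have hB30 : 0 ≤ |Real.log (1 - Real.exp (-(σ + 1)))| + 1 + Real.pi := by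
    have := Real.pi_pos
    positivity
  obtain ⟨K3, hK3, hb3⟩ := glob_L2 (F := fun s => 1 - exp (-s)) (L := fun s => log (1 - exp (-s)))
    (a := σ + 1) (C := 1 + Real.exp η) (κ := 0) hη ha hB30
    (fun s _ => by fun_prop)
    (fun s hs => by
      rw [pow_zero, mul_one]
      refine (norm_sub_le _ _).trans ?_
      rw [norm_one, Complex.norm_exp]
      have : Real.exp (-s).re ≤ Real.exp η := by
        apply Real.exp_le_exp.2
        rw [Complex.neg_re]
        linarith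
      linarith) hlog1d
    (fun s hs => Complex.exp_log (fun h => by
      have := slit_one_sub hs
      rw [h] at this
      exact Complex.zero_notMem_slitPlane this)) (fun T => by
      have e1 := log_one_sub_bd (δ' := σ + 1) (by linarith) (s := ((σ + 1 : ℝ) : ℂ) + T * I)
        (by simp)
      have l0 : 0 ≤ Real.log (1 + |T|) := Real.log_nonneg (by linarith [abs_nonneg T])
      refine e1.trans ?_
      nlinarith)
  -- the bound for `H`
  set τ : ℝ := r₁ / 2 with hτ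
  have hτ0 : 0 < τ := by rw [hτ]; linarith
  set Cτ : ℝ := 1 + 1 / τ ^ 2 with hCτ
  set K : ℝ≥0∞ := ENNReal.ofReal (Cn ^ 2) * ENNReal.ofReal (2 * τ) +
    ENNReal.ofReal (4 * Cτ) * (K1 + ENNReal.ofReal ((k : ℝ) ^ 2) * K2 +
      ENNReal.ofReal (r ^ 2) * K3 + ENNReal.ofReal (‖c'‖ ^ 2) *
        ∫⁻ T : ℝ, wq T * ENNReal.ofReal ((1 + Real.log (1 + |T|)) ^ 2)) with hK
  have hKt : K < ⊤ := by
    rw [hK]
    refine ENNReal.add_lt_top.2 ⟨ENNReal.mul_lt_top ENNReal.ofReal_lt_top ENNReal.ofReal_lt_top,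
      ENNReal.mul_lt_top ENNReal.ofReal_lt_top ?_⟩
    refine ENNReal.add_lt_top.2 ⟨ENNReal.add_lt_top.2 ⟨ENNReal.add_lt_top.2 ⟨hK1, ?_⟩, ?_⟩, ?_⟩
    · exact ENNReal.mul_lt_top ENNReal.ofReal_lt_top hK2
    · exact ENNReal.mul_lt_top ENNReal.ofReal_lt_top hK3
    · exact ENNReal.mul_lt_top ENNReal.ofReal_lt_top wq_log_fin
  have hmain : ∀ δ' : ℝ, 0 < δ' → δ' < min 1 τ → ∫⁻ t : ℝ, ‖H (δ' + t * I)‖ₑ ^ 2 ≤ K := by
    intro δ' hδ' hδ1
    have d1 : δ' ≤ 1 := (hδ1.trans_le (min_le_left _ _)).le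
    have d2 : δ' < τ := hδ1.trans_le (min_le_right _ _)
    have hpt : ∀ t : ℝ, ‖H (δ' + t * I)‖ₑ ^ 2 ≤
        (Icc (-τ) τ).indicator (fun _ => ENNReal.ofReal (Cn ^ 2)) t +
        ENNReal.ofReal (4 * Cτ) * (‖L1 (δ' + t * I)‖ₑ ^ 2 * wq t +
          ENNReal.ofReal ((k : ℝ) ^ 2) * (‖log (δ' + t * I)‖ₑ ^ 2 * wq t) +
          ENNReal.ofReal (r ^ 2) * (‖log (1 - exp (-(δ' + t * I)))‖ₑ ^ 2 * wq t) +
          ENNReal.ofReal (‖c'‖ ^ 2) * (wq t * ENNReal.ofReal ((1 + Real.log (1 + |t|)) ^ 2))) := by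
      intro t
      set s : ℂ := δ' + t * I with hs
      have hsre : s.re = δ' := by simp [hs]
      have hsim : s.im = t := by simp [hs]
      have hs1 : 0 < s.re := by rw [hsre]; exact hδ'
      have hen : ∀ z : ℂ, ‖z‖ₑ ^ 2 = ENNReal.ofReal (‖z‖ ^ 2) := by
        intro z
        rw [← ofReal_norm, ENNReal.ofReal_pow (norm_nonneg _)]
      by_cases ht : t ∈ Icc (-τ) τ
      · rw [indicator_of_mem ht]
        refine le_trans ?_ le_self_add
        rw [hen]
        apply ENNReal.ofReal_le_ofReal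
        apply pow_le_pow_left₀ (norm_nonneg _)
        refine hnear s hs1 ?_
        have e1 := Complex.norm_le_abs_re_add_abs_im s
        rw [hsre, hsim, abs_of_pos hδ'] at e1
        have e2 : |t| ≤ τ := abs_le.2 ht
        linarith
      · rw [indicator_of_notMem ht, zero_add]
        have ht2 : τ < |t| := by
          by_contra hcon
          exact ht (abs_le.1 (not_lt.1 hcon))
        have hn : |t| ≤ ‖s‖ := by
          rw [← hsim]
          exact Complex.abs_im_le_norm s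
        have hn0 : 0 < ‖s‖ := (hτ0.trans ht2).trans_le hn
        have l0 : 0 ≤ Real.log (1 + |t|) := Real.log_nonneg (by linarith [abs_nonneg t])
        simp only [hen, wq]
        rw [← ENNReal.ofReal_mul (by positivity), ← ENNReal.ofReal_mul (by positivity),
          ← ENNReal.ofReal_mul (by positivity), ← ENNReal.ofReal_mul (by positivity),
          ← ENNReal.ofReal_mul (by positivity), ← ENNReal.ofReal_mul (by positivity),
          ← ENNReal.ofReal_mul (by positivity), ← ENNReal.ofReal_add (by positivity) (by positivity),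
          ← ENNReal.ofReal_add (by positivity) (by positivity),
          ← ENNReal.ofReal_add (by positivity) (by positivity),
          ← ENNReal.ofReal_mul (by positivity)]
        apply ENNReal.ofReal_le_ofReal
        have e1 : ‖-L s + r * log (1 - exp (-s)) - c'‖ ≤
            ‖L1 s‖ + k * ‖log s‖ + |r| * ‖log (1 - exp (-s))‖ + ‖c'‖ := by
          have h1 : -L s = -L1 s + k * log s := by rw [hL1]; ring
          rw [h1]
          refine (norm_sub_le _ _).trans ?_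
          gcongr
          refine (norm_add_le _ _).trans ?_
          rw [norm_mul (r : ℂ), Complex.norm_real, Real.norm_eq_abs]
          gcongr
          refine (norm_add_le _ _).trans ?_
          rw [norm_neg, norm_mul, Complex.norm_natCast]
        have e2 : ‖H s‖ ^ 2 ≤ (‖L1 s‖ + k * ‖log s‖ + |r| * ‖log (1 - exp (-s))‖ + ‖c'‖) ^ 2 /
            t ^ 2 := by
          rw [hH]
          simp only
          rw [norm_div, div_pow]
          have e3 : t ^ 2 ≤ ‖s‖ ^ 2 := by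
            rw [← sq_abs]
            exact pow_le_pow_left₀ (abs_nonneg _) hn 2
          have e4 : 0 < t ^ 2 := by
            rw [← sq_abs]
            have := hτ0.trans ht2
            positivity
          exact div_le_div₀ (by positivity) (pow_le_pow_left₀ (norm_nonneg _) e1 2) e4 e3
        have e3 : 1 / t ^ 2 ≤ Cτ * (1 / (1 + t ^ 2)) := by
          have e4 : τ ^ 2 < t ^ 2 := by
            rw [← sq_abs t]
            exact pow_lt_pow_left₀ ht2 hτ0.le (by norm_num)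
          have e5 : 0 < t ^ 2 := (by positivity : 0 < τ ^ 2).trans e4
          rw [hCτ, mul_one_div, div_le_div_iff₀ e5 (by positivity), one_mul]
          have e6 : 1 ≤ 1 / τ ^ 2 * t ^ 2 := by
            rw [one_div, inv_mul_eq_div, one_le_div (by positivity)]
            exact e4.le
          nlinarith
        set a1 := ‖L1 s‖
        set a2 := (k : ℝ) * ‖log s‖ with ha2
        set a3 := |r| * ‖log (1 - exp (-s))‖ with ha3
        set a4 := ‖c'‖
        have e4 : (a1 + a2 + a3 + a4) ^ 2 ≤ 4 * (a1 ^ 2 + a2 ^ 2 + a3 ^ 2 + a4 ^ 2) := by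
          nlinarith [sq_nonneg (a1 - a2), sq_nonneg (a1 - a3), sq_nonneg (a1 - a4),
            sq_nonneg (a2 - a3), sq_nonneg (a2 - a4), sq_nonneg (a3 - a4)]
        have e5 : a4 ^ 2 ≤ a4 ^ 2 * (1 + Real.log (1 + |t|)) ^ 2 := by
          have : 1 ≤ (1 + Real.log (1 + |t|)) ^ 2 := one_le_pow₀ (by linarith)
          nlinarith [sq_nonneg a4]
        have e6 : a2 ^ 2 = (k : ℝ) ^ 2 * ‖log s‖ ^ 2 := by rw [ha2]; ring
        have e7 : a3 ^ 2 = r ^ 2 * ‖log (1 - exp (-s))‖ ^ 2 := by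
          rw [ha3, mul_pow, sq_abs]
        have hw0 : 0 ≤ 1 / (1 + t ^ 2) := by positivity
        calc ‖H s‖ ^ 2 ≤ (a1 + a2 + a3 + a4) ^ 2 * (1 / t ^ 2) := by
              rw [mul_one_div]
              exact e2
          _ ≤ (4 * (a1 ^ 2 + a2 ^ 2 + a3 ^ 2 + a4 ^ 2)) * (Cτ * (1 / (1 + t ^ 2))) :=
              mul_le_mul e4 e3 (by positivity) (by positivity)
          _ ≤ (4 * (a1 ^ 2 + a2 ^ 2 + a3 ^ 2 + a4 ^ 2 * (1 + Real.log (1 + |t|)) ^ 2)) *
              (Cτ * (1 / (1 + t ^ 2))) := by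
              apply mul_le_mul_of_nonneg_right _ (by positivity)
              linarith
          _ = _ := by
              rw [e6, e7]
              ring
    have m1 : Measurable fun t : ℝ => ‖L1 (δ' + t * I)‖ₑ ^ 2 * wq t :=
      (line_meas (L := L1) (fun s hs => (hL1d s hs).continuousAt) hδ').mul wq_meas
    have m2 := (line_meas (L := fun s => log s) (fun s hs => (hlogd s hs).continuousAt) hδ').mul
      wq_meas
    have m3 := (line_meas (L := fun s => log (1 - exp (-s)))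
      (fun s hs => (hlog1d s hs).continuousAt) hδ').mul wq_meas
    have m5 : Measurable fun t : ℝ => (Icc (-τ) τ).indicator (fun _ => ENNReal.ofReal (Cn ^ 2)) t :=
      measurable_const.indicator measurableSet_Icc
    refine (lintegral_mono hpt).trans ?_
    rw [lintegral_add_left m5, lintegral_indicator measurableSet_Icc, setLIntegral_const,
      Real.volume_Icc, lintegral_const_mul' _ _ ENNReal.ofReal_ne_top, hK]
    have e0 : τ - -τ = 2 * τ := by ring
    rw [e0]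
    gcongr
    have q1 : Measurable fun t : ℝ => ‖L1 (δ' + t * I)‖ₑ ^ 2 * wq t +
          ENNReal.ofReal ((k : ℝ) ^ 2) * (‖log (δ' + t * I)‖ₑ ^ 2 * wq t) +
          ENNReal.ofReal (r ^ 2) * (‖log (1 - exp (-(δ' + t * I)))‖ₑ ^ 2 * wq t) :=
      (m1.add (m2.const_mul _)).add (m3.const_mul _)
    have q2 : Measurable fun t : ℝ => ‖L1 (δ' + t * I)‖ₑ ^ 2 * wq t +
          ENNReal.ofReal ((k : ℝ) ^ 2) * (‖log (δ' + t * I)‖ₑ ^ 2 * wq t) :=
      m1.add (m2.const_mul _)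
    rw [lintegral_add_left q1, lintegral_add_left q2, lintegral_add_left m1,
      lintegral_const_mul' _ _ ENNReal.ofReal_ne_top, lintegral_const_mul' _ _ ENNReal.ofReal_ne_top,
      lintegral_const_mul' _ _ ENNReal.ofReal_ne_top]
    gcongr
    · exact hb1 δ' hδ' d1
    · exact hb2 δ' hδ' d1
    · exact hb3 δ' hδ' d1
  have hfin := paley_wiener hσ.le (lt_min one_pos hτ0) hk1 hk2 hHk hHd hbd hmain
  exact ⟨c', by rw [hc', neg_neg, hΓ0], hfin.trans_lt hKt⟩

end Pool.Agent.TH270.MC
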