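import Mathlib
set_option autoImplicit false
open MeasureTheory Filter Topology Set
namespace Pool.Agent.TH270.MC

namespace SumInt

variable (g : ℕ → ℝ)

theorem ae_eq (n : ℕ) : (fun x : ℝ => g n / x) =ᵐ[volume.restrict (uIoc (n : ℝ) ((n + 1 : ℕ) : ℝ))]
    fun x => g ⌊x⌋₊ / x := by
  have h1 : ∀ᵐ x : ℝ ∂(volume.restrict (uIoc (n : ℝ) ((n + 1 : ℕ) : ℝ))), x ≠ ((n + 1 : ℕ) : ℝ) :=
    ae_restrict_of_ae (Measure.ae_ne volume _)
  have h2 : ∀ᵐ x : ℝ ∂(volume.restrict (uIoc (n : ℝ) ((n + 1 : ℕ) : ℝ))),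
      x ∈ uIoc (n : ℝ) ((n + 1 : ℕ) : ℝ) := ae_restrict_mem measurableSet_uIoc
  filter_upwards [h1, h2] with x hx hx2
  rw [uIoc_of_le (by push_cast; linarith)] at hx2
  have h3 : ⌊x⌋₊ = n := by
    rw [Nat.floor_eq_iff (by
      have : (0 : ℝ) ≤ n := Nat.cast_nonneg n
      linarith [hx2.1])]
    refine ⟨hx2.1.le, ?_⟩
    have h4 := lt_of_le_of_ne hx2.2 hx
    push_cast at h4
    exact h4
  rw [h3]

theorem ii0 {n : ℕ} (hn : 1 ≤ n) :
    IntervalIntegrable (fun x : ℝ => g n / x) volume (n : ℝ) ((n + 1 : ℕ) : ℝ) := by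
  have hn' : (1 : ℝ) ≤ n := by exact_mod_cast hn
  apply ContinuousOn.intervalIntegrable
  apply ContinuousOn.div continuousOn_const continuousOn_id
  intro x hx
  rw [uIcc_of_le (by push_cast; linarith)] at hx
  have := hx.1
  simp only [id]
  linarith

theorem ii1 {n : ℕ} (hn : 1 ≤ n) :
    IntervalIntegrable (fun x : ℝ => g ⌊x⌋₊ / x) volume (n : ℝ) ((n + 1 : ℕ) : ℝ) :=
  (ii0 g hn).congr_ae (ae_eq g n)

theorem int1 {n : ℕ} (hn : 1 ≤ n) :
    ∫ x in (n : ℝ)..((n + 1 : ℕ) : ℝ), g ⌊x⌋₊ / x = g n * Real.log (((n + 1 : ℕ) : ℝ) / n) := by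
  have hn' : (1 : ℝ) ≤ n := by exact_mod_cast hn
  rw [← intervalIntegral.integral_congr_ae_restrict (ae_eq g n)]
  simp only [div_eq_mul_inv]
  rw [intervalIntegral.integral_const_mul, integral_inv_of_pos (by linarith) (by push_cast; linarith),
    div_eq_mul_inv]

theorem ii2 (M : ℕ) : IntervalIntegrable (fun x : ℝ => g ⌊x⌋₊ / x) volume 1 ((M + 1 : ℕ) : ℝ) := by
  have h := IntervalIntegrable.trans_iterate_Ico (f := fun x : ℝ => g ⌊x⌋₊ / x) (μ := volume)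
    (a := fun k : ℕ => (k : ℝ)) (m := 1) (n := M + 1) (by omega)
    (fun k hk => ii1 g hk.1)
  simpa using h

theorem int2 (M : ℕ) : ∫ x in (1 : ℝ)..((M + 1 : ℕ) : ℝ), g ⌊x⌋₊ / x =
    ∑ n ∈ Finset.Icc 1 M, g n * Real.log (((n + 1 : ℕ) : ℝ) / n) := by
  have h := intervalIntegral.sum_integral_adjacent_intervals_Ico
    (f := fun x : ℝ => g ⌊x⌋₊ / x) (μ := volume)
    (a := fun k : ℕ => (k : ℝ)) (m := 1) (n := M + 1) (by omega)
    (fun k hk => ii1 g hk.1)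
  simp only [Nat.cast_one] at h
  rw [← h]
  have e : Finset.Ico 1 (M + 1) = Finset.Icc 1 M := by
    ext k
    simp only [Finset.mem_Ico, Finset.mem_Icc]
    omega
  rw [e]
  refine Finset.sum_congr rfl fun n hn => ?_
  exact int1 g (Finset.mem_Icc.1 hn).1

theorem log_le {n : ℕ} (hn : 1 ≤ n) : Real.log (((n + 1 : ℕ) : ℝ) / n) ≤ 1 / n := by
  have hn' : (1 : ℝ) ≤ n := by exact_mod_cast hn
  have h := Real.log_le_sub_one_of_pos (x := ((n + 1 : ℕ) : ℝ) / n) (by positivity)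
  refine h.trans (le_of_eq ?_)
  push_cast
  field_simp
  ring

theorem le_log {n : ℕ} (hn : 1 ≤ n) : 1 / (n : ℝ) ≤ 2 * Real.log (((n + 1 : ℕ) : ℝ) / n) := by
  have hn' : (1 : ℝ) ≤ n := by exact_mod_cast hn
  have h := Real.one_sub_inv_le_log_of_pos (x := ((n + 1 : ℕ) : ℝ) / n) (by positivity)
  have h2 : 1 / (2 * (n : ℝ)) ≤ 1 - (((n + 1 : ℕ) : ℝ) / n)⁻¹ := by
    rw [inv_div]
    push_cast
    rw [div_le_iff₀ (by positivity)]
    have : (1 - (n : ℝ) / (n + 1)) * (2 * n) = 2 * n / (n + 1) := by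
      field_simp
      ring
    rw [this, le_div_iff₀ (by positivity)]
    linarith
  have h3 : 1 / (n : ℝ) = 2 * (1 / (2 * (n : ℝ))) := by
    field_simp
  rw [h3]
  linarith

end SumInt

open SumInt in
theorem sum_int (g : ℕ → ℝ) (hg : ∀ n, 0 ≤ g n) :
    (∃ B : ℝ, ∀ᶠ X : ℝ in atTop, ∫ x in Real.exp 1..X, g ⌊x⌋₊ / x ≤ B * Real.log X) ↔
      ∃ B : ℝ, ∀ᶠ M : ℕ in atTop, ∑ n ∈ Finset.Icc 1 M, g n / n ≤ B * Real.log M := by
  have he1 : 1 ≤ Real.exp 1 := by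
    have := Real.add_one_le_exp (1 : ℝ)
    linarith
  have he3 : Real.exp 1 ≤ 3 := by
    have := Real.exp_one_lt_d9
    linarith
  have hpos : ∀ a b : ℝ, 0 ≤ a → 0 ≤ᵐ[volume.restrict (Ioc a b)] fun x => g ⌊x⌋₊ / x := by
    intro a b ha
    filter_upwards [ae_restrict_mem measurableSet_Ioc] with x hx
    exact div_nonneg (hg _) (ha.trans hx.1.le)
  constructor
  · rintro ⟨B, hB⟩
    set C : ℝ := ∫ x in (1 : ℝ)..Real.exp 1, g ⌊x⌋₊ / x with hC
    have hB2 : ∀ᶠ M : ℕ in atTop, ∫ x in Real.exp 1..((M + 1 : ℕ) : ℝ), g ⌊x⌋₊ / x ≤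
        B * Real.log ((M + 1 : ℕ) : ℝ) := by
      have h1 : Tendsto (fun M : ℕ => ((M + 1 : ℕ) : ℝ)) atTop atTop :=
        tendsto_natCast_atTop_atTop.comp (tendsto_add_atTop_nat 1)
      exact h1.eventually hB
    refine ⟨2 * |C| + 4 * |B|, ?_⟩
    filter_upwards [hB2, eventually_ge_atTop 3] with M hM hM3
    have hM3' : (3 : ℝ) ≤ M := by exact_mod_cast hM3
    have hlog1 : 1 ≤ Real.log M := by
      rw [Real.le_log_iff_exp_le (by linarith)]
      linarith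
    have hlog2 : Real.log ((M + 1 : ℕ) : ℝ) ≤ 2 * Real.log M := by
      have e : 2 * Real.log M = Real.log ((M : ℝ) ^ 2) := by
        rw [Real.log_pow]
        norm_num
      rw [e]
      apply Real.log_le_log (by positivity)
      push_cast
      nlinarith
    have hlog0 : 0 ≤ Real.log ((M + 1 : ℕ) : ℝ) := Real.log_natCast_nonneg _
    have h1 : ∑ n ∈ Finset.Icc 1 M, g n / n ≤ 2 * ∫ x in (1 : ℝ)..((M + 1 : ℕ) : ℝ), g ⌊x⌋₊ / x := by
      rw [int2, Finset.mul_sum]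
      refine Finset.sum_le_sum fun n hn => ?_
      have h := le_log (Finset.mem_Icc.1 hn).1
      calc g n / n = g n * (1 / n) := by ring
        _ ≤ g n * (2 * Real.log (((n + 1 : ℕ) : ℝ) / n)) := mul_le_mul_of_nonneg_left h (hg n)
        _ = _ := by ring
    have hsub : Real.exp 1 ≤ ((M + 1 : ℕ) : ℝ) := by
      push_cast
      linarith
    have i1 : IntervalIntegrable (fun x : ℝ => g ⌊x⌋₊ / x) volume 1 (Real.exp 1) := by
      refine (ii2 g M).mono_set ?_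
      rw [uIcc_of_le he1, uIcc_of_le (he1.trans hsub)]
      exact Icc_subset_Icc le_rfl hsub
    have i2 : IntervalIntegrable (fun x : ℝ => g ⌊x⌋₊ / x) volume (Real.exp 1)
        ((M + 1 : ℕ) : ℝ) := by
      refine (ii2 g M).mono_set ?_
      rw [uIcc_of_le hsub, uIcc_of_le (he1.trans hsub)]
      exact Icc_subset_Icc he1 le_rfl
    have h2 : ∫ x in (1 : ℝ)..((M + 1 : ℕ) : ℝ), g ⌊x⌋₊ / x =
        C + ∫ x in Real.exp 1..((M + 1 : ℕ) : ℝ), g ⌊x⌋₊ / x := by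
      rw [hC, intervalIntegral.integral_add_adjacent_intervals i1 i2]
    have h3 : B * Real.log ((M + 1 : ℕ) : ℝ) ≤ |B| * (2 * Real.log M) :=
      (mul_le_mul_of_nonneg_right (le_abs_self B) hlog0).trans
        (mul_le_mul_of_nonneg_left hlog2 (abs_nonneg B))
    have h4 : C ≤ |C| * Real.log M := by
      have := le_abs_self C
      have := abs_nonneg C
      nlinarith
    rw [h2] at h1
    nlinarith
  · rintro ⟨B, hB⟩
    have hB2 : ∀ᶠ X : ℝ in atTop, ∑ n ∈ Finset.Icc 1 ⌊X⌋₊, g n / n ≤ B * Real.log ⌊X⌋₊ :=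
      tendsto_nat_floor_atTop.eventually hB
    refine ⟨|B|, ?_⟩
    filter_upwards [hB2, eventually_ge_atTop (Real.exp 1)] with X hX hXe
    have hX1 : 1 ≤ X := he1.trans hXe
    have hfl : 1 ≤ ⌊X⌋₊ := by
      rw [Nat.one_le_floor_iff]
      exact hX1
    have h1 : ∫ x in Real.exp 1..X, g ⌊x⌋₊ / x ≤
        ∫ x in (1 : ℝ)..((⌊X⌋₊ + 1 : ℕ) : ℝ), g ⌊x⌋₊ / x := by
      refine intervalIntegral.integral_mono_interval he1 hXe ?_ (hpos _ _ zero_le_one)
        (ii2 g ⌊X⌋₊)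
      push_cast
      exact (Nat.lt_floor_add_one X).le
    rw [int2] at h1
    refine h1.trans (le_trans ?_ (hX.trans ?_))
    · refine Finset.sum_le_sum fun n hn => ?_
      have h := log_le (Finset.mem_Icc.1 hn).1
      calc g n * Real.log (((n + 1 : ℕ) : ℝ) / n) ≤ g n * (1 / n) :=
            mul_le_mul_of_nonneg_left h (hg n)
        _ = g n / n := by ring
    · have hl0 : 0 ≤ Real.log (⌊X⌋₊ : ℝ) := Real.log_natCast_nonneg _
      have hl1 : Real.log (⌊X⌋₊ : ℝ) ≤ Real.log X :=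
        Real.log_le_log (by exact_mod_cast hfl) (Nat.floor_le (by linarith))
      exact (mul_le_mul_of_nonneg_right (le_abs_self B) hl0).trans
        (mul_le_mul_of_nonneg_left hl1 (abs_nonneg B))

end Pool.Agent.TH270.MC
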