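import Pool.Agent.TH270.MC.Defs

/-!
# Tail of the sharp Euler product with complex coefficients: prime powers versus primes
-/

set_option autoImplicit false

open MeasureTheory Filter Topology Set Complex
open Pool.Agent.TH942.ES Pool.Agent.TH270.MS

namespace Pool.Agent.TH270.MC

namespace Tail

variable {X : Type} {d : ℕ} {N : X → ℕ} {α : X → Fin d → ℂ}

lemma cC_hasSum (E : CS N α) (v : X) :
    HasSum (fun k : ℕ => cC N α (v, k)) (-cvC N α v) := by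
  have h1 : ∀ i, HasSum (fun k : ℕ => (zv N α v i) ^ (k + 1) / ((k + 1 : ℕ) : ℂ))
      (-log (1 - zv N α v i)) := by
    intro i
    have h2 := hasSum_taylorSeries_neg_log (E.norm_zv_lt v i)
    have h3 := (hasSum_nat_add_iff' (f := fun n : ℕ => (zv N α v i) ^ n / (n : ℂ)) 1).2 h2
    simpa using h3
  have h2 := hasSum_sum fun i (_ : i ∈ Finset.univ) => h1 i
  rw [Finset.sum_neg_distrib] at h2
  have h4 : (fun k : ℕ => cC N α (v, k)) = fun k : ℕ =>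
      ∑ i, (zv N α v i) ^ (k + 1) / ((k + 1 : ℕ) : ℂ) := by
    funext k
    rw [← Finset.sum_div]
    have e : ((k + 1 : ℕ) : ℂ) = (k : ℂ) + 1 := by push_cast; rfl
    rw [e]
    rfl
  rw [h4]
  exact h2

lemma term_leC (E : CS N α) {Y : ℝ} (hY : 0 < Y) (v : X) (k : ℕ)
    (hk : Y < (N v : ℝ) ^ (k + 3)) :
    ‖cC N α (v, k + 2)‖ ≤ Y ^ (-(1 / 12 : ℝ)) * (d * (N v : ℝ) ^ (-(5 / 4 : ℝ))) * (4 / 5) ^ k := by
  have hN := E.empty.Npos v
  have h1 := E.cC_norm (v, k + 2)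
  have e0 : (k + 2) + 1 = k + 3 := rfl
  simp only [e0] at h1
  have e1 : (1 / √(N v : ℝ)) ^ (k + 3) =
      ((N v : ℝ) ^ (k + 3)) ^ (-(1 / 12 : ℝ)) * ((N v : ℝ) ^ (-(5 / 12 : ℝ))) ^ (k + 3) := by
    have e2 : 1 / √(N v : ℝ) = (N v : ℝ) ^ (-(1 / 12 : ℝ)) * (N v : ℝ) ^ (-(5 / 12 : ℝ)) := by
      rw [← Real.rpow_add hN, Real.sqrt_eq_rpow, one_div, ← Real.rpow_neg hN.le]
      congr 1
      norm_num
    have e3 : ((N v : ℝ) ^ (k + 3)) ^ (-(1 / 12 : ℝ)) =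
        ((N v : ℝ) ^ (-(1 / 12 : ℝ))) ^ (k + 3) := by
      rw [← Real.rpow_natCast, ← Real.rpow_natCast, ← Real.rpow_mul hN.le, ← Real.rpow_mul hN.le,
        mul_comm]
    rw [e2, mul_pow, e3]
  have h2 : ((N v : ℝ) ^ (k + 3)) ^ (-(1 / 12 : ℝ)) ≤ Y ^ (-(1 / 12 : ℝ)) :=
    Real.rpow_le_rpow_of_nonpos hY hk.le (by norm_num)
  have ha0 : 0 < (N v : ℝ) ^ (-(5 / 12 : ℝ)) := Real.rpow_pos_of_pos hN _
  have h3 : ((N v : ℝ) ^ (-(5 / 12 : ℝ))) ^ (k + 3) ≤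
      (N v : ℝ) ^ (-(5 / 4 : ℝ)) * (4 / 5) ^ k := by
    have e4 : ((N v : ℝ) ^ (-(5 / 12 : ℝ))) ^ 3 = (N v : ℝ) ^ (-(5 / 4 : ℝ)) := by
      rw [← Real.rpow_natCast, ← Real.rpow_mul hN.le]
      congr 1
      norm_num
    rw [pow_add, mul_comm, e4]
    exact mul_le_mul_of_nonneg_left (pow_le_pow_left₀ ha0.le
      (Pool.Agent.TH270.MS.Tail.a_le (E.empty.Ntwo v)) k) (by positivity)
  calc ‖cC N α (v, k + 2)‖ ≤ d * (1 / √(N v : ℝ)) ^ (k + 3) := h1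
    _ = d * (((N v : ℝ) ^ (k + 3)) ^ (-(1 / 12 : ℝ)) *
          ((N v : ℝ) ^ (-(5 / 12 : ℝ))) ^ (k + 3)) := by rw [e1]
    _ ≤ d * (Y ^ (-(1 / 12 : ℝ)) * ((N v : ℝ) ^ (-(5 / 4 : ℝ)) * (4 / 5) ^ k)) := by
        apply mul_le_mul_of_nonneg_left _ (Nat.cast_nonneg d)
        exact mul_le_mul h2 h3 (by positivity) (by positivity)
    _ = _ := by ring

open Classical in
/-- one prime -/
lemma oneC (E : CS N α) {Y : ℝ} (hY : 1 ≤ Y) {n : ℕ} (hn : Y < n) (v : X) (hv : (N v : ℝ) ≤ Y) :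
    ‖cvC N α v + (∑ k ∈ Finset.range n, if (N v : ℝ) ^ (k + 1) ≤ Y then cC N α (v, k) else 0) +
        (if √Y < N v then cC N α (v, 1) else 0)‖ ≤
      Y ^ (-(1 / 12 : ℝ)) * (d * (N v : ℝ) ^ (-(5 / 4 : ℝ))) * 5 := by
  have hN := E.empty.Npos v
  have hY0 : 0 < Y := by linarith
  have h1 := cC_hasSum E v
  have h2 : HasSum (fun k : ℕ => if (N v : ℝ) ^ (k + 1) ≤ Y then cC N α (v, k) else 0)
      (∑ k ∈ Finset.range n, if (N v : ℝ) ^ (k + 1) ≤ Y then cC N α (v, k) else 0) := by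
    apply hasSum_sum_of_ne_finset_zero
    intro k hk
    rw [Finset.mem_range] at hk
    rw [if_neg]
    exact fun h => hk (Pool.Agent.TH270.MS.Tail.lt_of_pow E.empty hn v k h)
  have h3 := h1.sub h2
  have h4 := (hasSum_nat_add_iff' 2).2 h3
  rw [Finset.sum_range_succ, Finset.sum_range_one] at h4
  have e0 : (N v : ℝ) ^ (0 + 1) ≤ Y := by simpa using hv
  have e1 : (√Y < N v) ↔ ¬ (N v : ℝ) ^ (1 + 1) ≤ Y := by
    rw [not_le, Real.sqrt_lt' hN]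
  rw [if_pos e0, sub_self, zero_add] at h4
  have h5 : ∀ k : ℕ, ‖cC N α (v, k + 2) -
      (if (N v : ℝ) ^ (k + 2 + 1) ≤ Y then cC N α (v, k + 2) else 0)‖ ≤
      Y ^ (-(1 / 12 : ℝ)) * (d * (N v : ℝ) ^ (-(5 / 4 : ℝ))) * (4 / 5) ^ k := by
    intro k
    split_ifs with hk
    · rw [sub_self, norm_zero]
      positivity
    · rw [sub_zero]
      push Not at hk
      exact term_leC E hY0 v k hk
  have h6 : HasSum (fun k : ℕ => Y ^ (-(1 / 12 : ℝ)) * (d * (N v : ℝ) ^ (-(5 / 4 : ℝ))) *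
      (4 / 5) ^ k) (Y ^ (-(1 / 12 : ℝ)) * (d * (N v : ℝ) ^ (-(5 / 4 : ℝ))) * 5) := by
    have h7 := (hasSum_geometric_of_lt_one (r := (4 / 5 : ℝ)) (by norm_num) (by norm_num)).mul_left
      (Y ^ (-(1 / 12 : ℝ)) * (d * (N v : ℝ) ^ (-(5 / 4 : ℝ))))
    have e : (1 - 4 / 5 : ℝ)⁻¹ = 5 := by norm_num
    rw [e] at h7
    exact h7
  have h8 := HasSum.norm_le_of_bounded h4 h6 h5
  rw [← norm_neg] at h8
  refine le_trans (le_of_eq ?_) h8
  congr 1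
  by_cases hc : √Y < N v
  · rw [if_pos hc, if_neg (e1.1 hc)]
    ring
  · have hc' : (N v : ℝ) ^ (1 + 1) ≤ Y := by
      by_contra h
      exact hc (e1.2 h)
    rw [if_neg hc, if_pos hc']
    ring

end Tail

theorem sharp_tailC {X : Type} {d : ℕ} {N : X → ℕ} {α : X → Fin d → ℂ} (E : CS N α) :
    ∃ C : ℝ, ∀ Y : ℝ, 1 ≤ Y →
      ‖(∑ᶠ (v : X) (_ : (N v : ℝ) ≤ Y), cvC N α v) + Pc N α Y +
        ∑ᶠ (v : X) (_ : √Y < N v ∧ (N v : ℝ) ≤ Y), cC N α (v, 1)‖ ≤ C * Y ^ (-(1 / 12 : ℝ)) := by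
  classical
  refine ⟨5 * d * ∑' v, (N v : ℝ) ^ (-(5 / 4 : ℝ)), fun Y hY => ?_⟩
  have hY0 : 0 < Y := by linarith
  obtain ⟨n, hn⟩ := exists_nat_gt Y
  have hA := E.empty.fin_le Y
  have e1 : (∑ᶠ (v : X) (_ : (N v : ℝ) ≤ Y), cvC N α v) = ∑ v ∈ hA.toFinset, cvC N α v :=
    finsum_mem_eq_finite_toFinset_sum (fun v : X => cvC N α v) hA
  have hB : {v : X | √Y < N v ∧ (N v : ℝ) ≤ Y}.Finite := hA.subset fun v hv => hv.2
  have e2 : (∑ᶠ (v : X) (_ : √Y < N v ∧ (N v : ℝ) ≤ Y), cC N α (v, 1)) =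
      ∑ v ∈ hA.toFinset, if √Y < N v then cC N α (v, 1) else 0 := by
    have h1 : (∑ᶠ (v : X) (_ : √Y < N v ∧ (N v : ℝ) ≤ Y), cC N α (v, 1)) =
        ∑ v ∈ hB.toFinset, cC N α (v, 1) :=
      finsum_mem_eq_finite_toFinset_sum (fun v : X => cC N α (v, 1)) hB
    rw [h1, ← Finset.sum_filter]
    refine Finset.sum_congr ?_ fun _ _ => rfl
    ext v
    rw [Finset.mem_filter, Set.Finite.mem_toFinset, Set.Finite.mem_toFinset]
    exact ⟨fun h => ⟨h.2, h.1⟩, fun h => ⟨h.2, h.1⟩⟩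
  have hS := E.empty.finS Y
  have e3 : Pc N α Y = ∑ v ∈ hA.toFinset, ∑ k ∈ Finset.range n,
      if (N v : ℝ) ^ (k + 1) ≤ Y then cC N α (v, k) else 0 := by
    have h1 : Pc N α Y = ∑ p ∈ hS.toFinset, cC N α p :=
      finsum_mem_eq_finite_toFinset_sum (fun p : X × ℕ => cC N α p) hS
    rw [h1, ← Finset.sum_product', ← Finset.sum_filter]
    refine Finset.sum_congr ?_ fun _ _ => rfl
    ext ⟨v, k⟩
    rw [Finset.mem_filter, Set.Finite.mem_toFinset, Finset.mem_product, Set.Finite.mem_toFinset,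
      Finset.mem_range]
    constructor
    · intro h
      have h2 : (N v : ℝ) ^ (k + 1) ≤ Y := h
      have h3 : (N v : ℝ) ≤ (N v : ℝ) ^ (k + 1) :=
        le_self_pow₀ (by have := E.empty.Ntwo v; linarith) (by omega)
      exact ⟨⟨h3.trans h2, Pool.Agent.TH270.MS.Tail.lt_of_pow E.empty hn v k h2⟩, h2⟩
    · exact fun h => h.2
  rw [e1, e2, e3, ← Finset.sum_add_distrib, ← Finset.sum_add_distrib]
  refine (norm_sum_le _ _).trans ?_
  calc _ ≤ ∑ v ∈ hA.toFinset, Y ^ (-(1 / 12 : ℝ)) * (d * (N v : ℝ) ^ (-(5 / 4 : ℝ))) * 5 := by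
        refine Finset.sum_le_sum fun v hv => ?_
        rw [Set.Finite.mem_toFinset] at hv
        exact Tail.oneC E hY hn v hv
    _ = 5 * d * Y ^ (-(1 / 12 : ℝ)) * ∑ v ∈ hA.toFinset, (N v : ℝ) ^ (-(5 / 4 : ℝ)) := by
        rw [Finset.mul_sum]
        refine Finset.sum_congr rfl fun v _ => ?_
        ring
    _ ≤ 5 * d * Y ^ (-(1 / 12 : ℝ)) * ∑' v, (N v : ℝ) ^ (-(5 / 4 : ℝ)) := by
        apply mul_le_mul_of_nonneg_left _ (by positivity)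
        exact (E.sum (5 / 4) (by norm_num)).sum_le_tsum _ fun v _ => by positivity
    _ = _ := by ring

end Pool.Agent.TH270.MC
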