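import Pool.Agent.TH270.MC.Near
import Pool.Agent.TH270.MC.SumInt
import Pool.Agent.TH270.MC.Dbl
import Pool.Agent.TH270.MC.Tail

/-!
# Central values of complex Euler products
-/

set_option autoImplicit false

open MeasureTheory Filter Topology Set Complex
open scoped ENNReal
open Pool.Agent.TH942.ES
open Pool.Agent.TH270.MS

namespace Pool.Agent.TH270.MC

variable {X : Type} {d : ℕ} {N : X → ℕ} {α : X → Fin d → ℂ} {Ψ : ℂ → ℂ} {κ : ℕ} {η C : ℝ}

/-- the product with the conjugate function -/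
noncomputable def P2 (Ψ : ℂ → ℂ) (s : ℂ) : ℂ := Ψ s * (starRingEnd ℂ) (Ψ ((starRingEnd ℂ) s))

theorem p2_ne : (∀ s : ℂ, 0 < s.re → P2 Ψ s ≠ 0) ↔ ∀ s : ℂ, 0 < s.re → Ψ s ≠ 0 := by
  constructor
  · intro h s hs h0
    exact h s hs (by unfold P2; rw [h0, zero_mul])
  · intro h s hs
    unfold P2
    refine mul_ne_zero (h s hs) ?_
    rw [Ne, map_eq_zero]
    exact h _ (by rwa [Complex.conj_re])

theorem p2_zero : P2 Ψ 0 = 0 ↔ Ψ 0 = 0 := by
  unfold P2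
  rw [map_zero, mul_eq_zero, map_eq_zero, or_self]

theorem McC.ana (H : McC N α Ψ κ η C) : AnalyticAt ℂ Ψ 0 := by
  have hηU : IsOpen {s : ℂ | -η < s.re} := isOpen_lt continuous_const Complex.continuous_re
  exact (DifferentiableOn.analyticOnNhd (fun z hz => (H.hG z hz).differentiableWithinAt) hηU) 0
      (show -η < (0 : ℂ).re by simpa using H.hη)

theorem McC.ana2 (H : McC N α Ψ κ η C) : AnalyticAt ℂ (P2 Ψ) 0 := by
  have hηU : IsOpen {s : ℂ | -η < s.re} := isOpen_lt continuous_const Complex.continuous_re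
  have H2 := dbl_mc H
  exact (DifferentiableOn.analyticOnNhd (fun z hz => (H2.hG z hz).differentiableWithinAt) hηU) 0
      (show -η < (0 : ℂ).re by simpa using H.hη)

theorem McC.order_zero (H : McC N α Ψ κ η C) :
    meromorphicOrderAt (P2 Ψ) 0 = ((0 : ℤ) : WithTop ℤ) ↔ Ψ 0 ≠ 0 := by
  have h1 := H.ana2
  rw [h1.meromorphicOrderAt_eq, Ne, ← p2_zero (Ψ := Ψ), ← h1.analyticOrderAt_ne_zero, not_not]
  constructor
  · intro h
    cases h2 : analyticOrderAt (P2 Ψ) 0 with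
    | top => rw [h2] at h; simp at h
    | coe n =>
      rw [h2] at h
      have h3 : ((n : ℤ) : WithTop ℤ) = ((0 : ℤ) : WithTop ℤ) := h
      have h4 : (n : ℤ) = 0 := by exact_mod_cast h3
      have h5 : n = 0 := by exact_mod_cast h4
      rw [h5]
      rfl
  · intro h
    rw [h]
    rfl

/-- the partial products over the prime powers converge to the central value -/
theorem near_exp (H : McC N α Ψ κ η C) (hne : ∀ s : ℂ, 0 < s.re → Ψ s ≠ 0) {ε : ℝ}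
    (hε : 0 < ε) : AA fun n => ‖exp (Pc N α (n : ℝ)) - Ψ 0‖ < ε := by
  by_cases h0 : Ψ 0 = 0
  · have H2 : Mc N (dbl α) (P2 Ψ) (P2 Ψ) 0 (2 * κ) η (C ^ 2) := dbl_mc H
    obtain ⟨-, r, hr⟩ := H2.order
    have hr0 : 0 < r := by
      have h1 := H.ana2
      have h2 : analyticOrderAt (P2 Ψ) 0 ≠ 0 := h1.analyticOrderAt_ne_zero.2 (p2_zero.2 h0)
      rw [h1.meromorphicOrderAt_eq] at hr
      cases h3 : analyticOrderAt (P2 Ψ) 0 with
      | top => rw [h3] at hr; simp at hr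
      | coe n =>
        rw [h3] at hr h2
        have h4 : ((n : ℤ) : WithTop ℤ) = ((r : ℤ) : WithTop ℤ) := hr
        have h5 : (n : ℤ) = r := by exact_mod_cast h4
        have h6 : n ≠ 0 := by
          rintro rfl
          exact h2 rfl
        omega
    refine (near_inf H2 (p2_ne.2 hne) hr0 hr (-(2 * Real.log ε))).mono fun n hn => ?_
    rw [dbl_Pl H.E, neg_neg] at hn
    rw [h0, sub_zero, Complex.norm_exp]
    calc Real.exp (Pc N α (n : ℝ)).re < Real.exp (Real.log ε) :=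
          Real.exp_lt_exp.2 (by linarith)
      _ = ε := Real.exp_log hε
  · obtain ⟨ℓ, h1, h2⟩ := mean_sq H hne h0
    obtain ⟨δ, hδ, h3⟩ := Metric.continuousAt_iff.1 (Complex.continuous_exp.continuousAt (x := ℓ)) ε hε
    refine (near_ell h2 hδ).mono fun n hn => ?_
    have h4 := h3 (x := Pc N α (n : ℝ)) (by rwa [dist_eq_norm])
    rwa [dist_eq_norm, h1] at h4

/-- small corrections -/
theorem near_corr (H : McC N α Ψ κ η C) (hne : ∀ s : ℂ, 0 < s.re → Ψ s ≠ 0) {w : ℕ → ℂ}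
    (hw : Tendsto w atTop (𝓝 0)) {ε : ℝ} (hε : 0 < ε) :
    AA fun n => ‖exp (Pc N α (n : ℝ) + w n) - Ψ 0‖ < ε := by
  set L : ℝ := ‖Ψ 0‖ with hL
  have hL0 : 0 ≤ L := norm_nonneg _
  set δ : ℝ := min 1 (ε / (L + 2)) with hδ
  have hδ0 : 0 < δ := by positivity
  have hδ1 : δ ≤ 1 := min_le_left _ _
  have hδ2 : δ * (L + 2) ≤ ε := by
    have := min_le_right 1 (ε / (L + 2))
    rw [← hδ, le_div_iff₀ (by positivity)] at this
    exact this
  have h1 : Tendsto (fun n => exp (w n)) atTop (𝓝 1) := by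
    have := (Complex.continuous_exp.tendsto 0).comp hw
    rwa [Complex.exp_zero] at this
  have h2 : ∀ᶠ n in atTop, ‖exp (w n) - 1‖ < δ := by
    have := h1.eventually (Metric.ball_mem_nhds 1 hδ0)
    filter_upwards [this] with n hn
    rwa [dist_eq_norm] at hn
  refine ((near_exp H hne hδ0).and (aa_of_eventually h2)).mono fun n hn => ?_
  obtain ⟨h3, h4⟩ := hn
  rw [Complex.exp_add]
  have h5 : ‖exp (Pc N α (n : ℝ))‖ ≤ L + δ := by
    have := norm_add_le (exp (Pc N α (n : ℝ)) - Ψ 0) (Ψ 0)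
    rw [sub_add_cancel] at this
    linarith
  have h6 : exp (Pc N α (n : ℝ)) * exp (w n) - Ψ 0 =
      exp (Pc N α (n : ℝ)) * (exp (w n) - 1) + (exp (Pc N α (n : ℝ)) - Ψ 0) := by ring
  rw [h6]
  refine (norm_add_le _ _).trans_lt ?_
  rw [norm_mul]
  have h7 : ‖exp (Pc N α (n : ℝ))‖ * ‖exp (w n) - 1‖ ≤ (L + δ) * δ :=
    mul_le_mul h5 h4.le (norm_nonneg _) (by linarith)
  nlinarith

/-- bounded means -/
theorem bdd_iff (H : McC N α Ψ κ η C) : ((∀ s : ℂ, 0 < s.re → Ψ s ≠ 0) ∧ Ψ 0 ≠ 0) ↔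
    ∃ B : ℝ, ∀ᶠ M : ℕ in atTop, ∑ n ∈ Finset.Icc 1 M, |(Pc N α (n : ℝ)).re| / n ≤
      B * Real.log M := by
  have H2 : Mc N (dbl α) (P2 Ψ) (P2 Ψ) 0 (2 * κ) η (C ^ 2) := dbl_mc H
  have t : ((∀ s : ℂ, 0 < s.re → P2 Ψ s ≠ 0) ∧ meromorphicOrderAt (P2 Ψ) 0 = ((0 : ℤ) : WithTop ℤ)) ↔
      ∃ B : ℝ, ∀ᶠ Y : ℝ in atTop, ∫ y in Real.exp 1..Y,
        |Pl N (dbl α) y + ((0 : ℤ) : ℝ) * Real.log (Real.log y)| / y ≤ B * Real.log Y :=
    (H2.tfae_order 0).out 0 2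
  rw [p2_ne, H.order_zero] at t
  rw [t]
  have h1 : ∀ Y : ℝ, Real.exp 1 ≤ Y → ∫ y in Real.exp 1..Y,
        |Pl N (dbl α) y + ((0 : ℤ) : ℝ) * Real.log (Real.log y)| / y =
      ∫ y in Real.exp 1..Y, (fun n : ℕ => |Pl N (dbl α) (n : ℝ)|) ⌊y⌋₊ / y := by
    intro Y hY
    refine intervalIntegral.integral_congr fun y hy => ?_
    rw [uIcc_of_le hY] at hy
    have h0 : 0 ≤ y := (Real.exp_pos 1).le.trans hy.1
    simp only [Int.cast_zero, zero_mul, add_zero]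
    rw [pl_floor N (dbl α) h0]
  have h2 : (∃ B : ℝ, ∀ᶠ Y : ℝ in atTop, ∫ y in Real.exp 1..Y,
        |Pl N (dbl α) y + ((0 : ℤ) : ℝ) * Real.log (Real.log y)| / y ≤ B * Real.log Y) ↔
      ∃ B : ℝ, ∀ᶠ Y : ℝ in atTop, ∫ y in Real.exp 1..Y,
        (fun n : ℕ => |Pl N (dbl α) (n : ℝ)|) ⌊y⌋₊ / y ≤ B * Real.log Y := by
    refine exists_congr fun B => eventually_congr ?_
    filter_upwards [eventually_ge_atTop (Real.exp 1)] with Y hY
    rw [h1 Y hY]
  rw [h2, sum_int (fun n : ℕ => |Pl N (dbl α) (n : ℝ)|) fun n => abs_nonneg _]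
  have h3 : ∀ M : ℕ, ∑ n ∈ Finset.Icc 1 M, |Pl N (dbl α) (n : ℝ)| / n =
      2 * ∑ n ∈ Finset.Icc 1 M, |(Pc N α (n : ℝ)).re| / n := by
    intro M
    rw [Finset.mul_sum]
    refine Finset.sum_congr rfl fun n _ => ?_
    rw [dbl_Pl H.E, abs_mul, abs_of_pos (by norm_num : (0 : ℝ) < 2)]
    ring
  simp only [h3]
  constructor
  · rintro ⟨B, hB⟩
    refine ⟨B / 2, ?_⟩
    filter_upwards [hB] with M hM
    linarith
  · rintro ⟨B, hB⟩
    refine ⟨2 * B, ?_⟩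
    filter_upwards [hB] with M hM
    linarith

/-- bounded perturbations -/
theorem bdd_pert {f g : ℕ → ℝ} {K : ℝ} (h : ∀ n : ℕ, 1 ≤ n → |f n - g n| ≤ K)
    (hf : ∃ B : ℝ, ∀ᶠ M : ℕ in atTop, ∑ n ∈ Finset.Icc 1 M, |f n| / n ≤ B * Real.log M) :
    ∃ B : ℝ, ∀ᶠ M : ℕ in atTop, ∑ n ∈ Finset.Icc 1 M, |g n| / n ≤ B * Real.log M := by
  obtain ⟨B, hB⟩ := hf
  have hK : 0 ≤ K := (abs_nonneg _).trans (h 1 le_rfl)
  refine ⟨B + 2 * K, ?_⟩
  filter_upwards [hB, eventually_ge_atTop 3] with M hM hM3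
  have hM3r : (3 : ℝ) ≤ M := by exact_mod_cast hM3
  have hl : 1 ≤ Real.log (M : ℝ) := by
    rw [Real.le_log_iff_exp_le (by linarith)]
    exact Real.exp_one_lt_three.le.trans hM3r
  have h1 : ∑ n ∈ Finset.Icc 1 M, |g n| / n ≤
      (∑ n ∈ Finset.Icc 1 M, |f n| / n) + K * ∑ n ∈ Finset.Icc 1 M, (1 : ℝ) / n := by
    rw [Finset.mul_sum, ← Finset.sum_add_distrib]
    refine Finset.sum_le_sum fun n hn => ?_
    have hn1 := (Finset.mem_Icc.1 hn).1
    have hn0 : (0 : ℝ) < n := by exact_mod_cast hn1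
    have h2 := h n hn1
    have h3 := abs_sub_abs_le_abs_sub (g n) (f n)
    rw [abs_sub_comm] at h3
    have h4 : |g n| ≤ |f n| + K := by linarith
    calc |g n| / n ≤ (|f n| + K) / n := div_le_div_of_nonneg_right h4 hn0.le
      _ = _ := by ring
  have h5 : ∑ n ∈ Finset.Icc 1 M, (1 : ℝ) / n ≤ 1 + Real.log M := by
    have h6 := harmonic_le_one_add_log M
    have h7 : (harmonic M : ℝ) = ∑ n ∈ Finset.Icc 1 M, (1 : ℝ) / n := by
      rw [harmonic_eq_sum_Icc]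
      push_cast
      refine Finset.sum_congr rfl fun n _ => ?_
      rw [one_div]
    rw [← h7]
    exact h6
  have h8 : K * ∑ n ∈ Finset.Icc 1 M, (1 : ℝ) / n ≤ K * (2 * Real.log M) :=
    mul_le_mul_of_nonneg_left (by linarith) hK
  linarith

end Pool.Agent.TH270.MC
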