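import Pool.Agent.TH270.MC.Sys
import Pool.Agent.TH270.MC.AA

/-!
# The partial products converge for almost all integers
-/

set_option autoImplicit false

open MeasureTheory Filter Topology Set Complex
open scoped ENNReal
open Pool.Agent.TH942.ES
open Pool.Agent.TH270.MS

namespace Pool.Agent.TH270.MC

variable {X : Type} {d : ℕ} {N : X → ℕ} {α : X → Fin d → ℂ}

theorem pow_floor {v : X} {k : ℕ} {Y : ℝ} (hY : 0 ≤ Y) :
    (N v : ℝ) ^ (k + 1) ≤ Y ↔ (N v : ℝ) ^ (k + 1) ≤ (⌊Y⌋₊ : ℝ) := by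
  have e : (N v : ℝ) ^ (k + 1) = ((N v ^ (k + 1) : ℕ) : ℝ) := by push_cast; rfl
  rw [e, Nat.cast_le, ← Nat.le_floor_iff hY]

theorem pc_floor (N : X → ℕ) (α : X → Fin d → ℂ) {Y : ℝ} (hY : 0 ≤ Y) :
    Pc N α Y = Pc N α (⌊Y⌋₊ : ℝ) := by
  unfold Pc
  refine finsum_congr fun p => ?_
  rw [propext (pow_floor (N := N) (v := p.1) (k := p.2) hY)]

theorem pl_floor (N : X → ℕ) (α : X → Fin d → ℂ) {Y : ℝ} (hY : 0 ≤ Y) :
    Pl N α Y = Pl N α (⌊Y⌋₊ : ℝ) := by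
  unfold Pl
  refine finsum_congr fun p => ?_
  rw [propext (pow_floor (N := N) (v := p.1) (k := p.2) hY)]

theorem near_ell {ℓ : ℂ} (h : ∫⁻ u in Ioi (0 : ℝ), ‖Pc N α (Real.exp u) - ℓ‖ₑ ^ 2 < ⊤) {ε : ℝ}
    (hε : 0 < ε) : AA fun n => ‖Pc N α (n : ℝ) - ℓ‖ < ε := by
  have hmono : Monotone fun n : ℕ => Real.log (n : ℝ) := by
    intro a b hab
    rcases Nat.eq_zero_or_pos a with h0 | h0
    · subst h0
      simp only [Nat.cast_zero, Real.log_zero]
      exact Real.log_natCast_nonneg b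
    · exact Real.log_le_log (by exact_mod_cast h0) (by exact_mod_cast hab)
  have hd := hmono.pairwise_disjoint_on_Ioo_succ
  refine aa_of_lint h (A := fun n : ℕ => Ioo (Real.log (n : ℝ)) (Real.log ((Order.succ n : ℕ) : ℝ)))
    (fun n => measurableSet_Ioo) hd (δ := ε ^ 2 / 2) (by positivity) (n₀ := 1) fun n hn hS => ?_
  have hn0 : (0 : ℝ) < n := by exact_mod_cast hn
  have hl0 : 0 ≤ Real.log (n : ℝ) := Real.log_natCast_nonneg n
  rw [not_lt] at hS
  have hsucc : ((Order.succ n : ℕ) : ℝ) = (n : ℝ) + 1 := by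
    rw [Nat.succ_eq_succ]
    push_cast
    ring
  rw [Measure.restrict_restrict measurableSet_Ioo, hsucc]
  have hI : Ioo (Real.log (n : ℝ)) (Real.log ((n : ℝ) + 1)) ∩ Ioi 0 =
      Ioo (Real.log (n : ℝ)) (Real.log ((n : ℝ) + 1)) :=
    inter_eq_left.2 fun u hu => lt_of_le_of_lt hl0 hu.1
  rw [hI]
  have h1 : ∀ u ∈ Ioo (Real.log (n : ℝ)) (Real.log ((n : ℝ) + 1)),
      ENNReal.ofReal (ε ^ 2) ≤ ‖Pc N α (Real.exp u) - ℓ‖ₑ ^ 2 := by
    intro u hu
    have h2 : (n : ℝ) < Real.exp u := (Real.log_lt_iff_lt_exp hn0).1 hu.1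
    have h3 : Real.exp u < (n : ℝ) + 1 := (Real.lt_log_iff_exp_lt (by linarith)).1 hu.2
    have h4 : ⌊Real.exp u⌋₊ = n := (Nat.floor_eq_iff (Real.exp_pos u).le).2 ⟨h2.le, h3⟩
    rw [pc_floor N α (Real.exp_pos u).le, h4, ← ofReal_norm, ← ENNReal.ofReal_pow (norm_nonneg _)]
    exact ENNReal.ofReal_le_ofReal (pow_le_pow_left₀ hε.le hS 2)
  refine le_trans ?_ (setLIntegral_mono_ae' measurableSet_Ioo (Eventually.of_forall h1))
  rw [setLIntegral_const, Real.volume_Ioo, ← ENNReal.ofReal_mul (by positivity)]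
  apply ENNReal.ofReal_le_ofReal
  have h5 : 1 / (2 * (n : ℝ)) ≤ Real.log ((n : ℝ) + 1) - Real.log n := by
    rw [← Real.log_div (by linarith) hn0.ne']
    have h6 := Real.one_sub_inv_le_log_of_pos (x := ((n : ℝ) + 1) / n) (by positivity)
    have h7 : 1 - (((n : ℝ) + 1) / n)⁻¹ = 1 / ((n : ℝ) + 1) := by
      field_simp
      ring
    rw [h7] at h6
    refine le_trans ?_ h6
    have hn1 : (1 : ℝ) ≤ n := by exact_mod_cast hn
    exact one_div_le_one_div_of_le (by linarith) (by linarith)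
  calc ε ^ 2 / 2 / n = ε ^ 2 * (1 / (2 * (n : ℝ))) := by field_simp
    _ ≤ _ := mul_le_mul_of_nonneg_left h5 (by positivity)

/-- at a zero the partial products tend to zero -/
theorem near_inf {Ψ G₀ : ℂ → ℂ} {k κ : ℕ} {η C : ℝ} (H : Mc N α Ψ G₀ k κ η C)
    (hne : ∀ s : ℂ, 0 < s.re → Ψ s ≠ 0) {r : ℤ} (hr : 0 < r) (ho : meromorphicOrderAt Ψ 0 = r)
    (K : ℝ) : AA fun n => Pl N α (n : ℝ) < -K := by
  have t : ((∀ s : ℂ, 0 < s.re → Ψ s ≠ 0) ∧ meromorphicOrderAt Ψ 0 = r) ↔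
      ∃ A : ℝ, 0 < A ∧ IntegrableOn (fun Y : ℝ => Dv N α r A Y ^ 2 / Y) (Ioi (Real.exp 1)) :=
    (H.tfae_order r).out 0 1
  obtain ⟨A, -, hA⟩ := t.1 ⟨hne, ho⟩
  have h1 : ∫⁻ Y in Ioi (Real.exp 1), ENNReal.ofReal (Dv N α r A Y ^ 2 / Y) < ⊤ := by
    have h2 := hA.lintegral_lt_top
    exact h2
  have hmono : Monotone fun n : ℕ => (n : ℝ) := Nat.mono_cast
  have hd := hmono.pairwise_disjoint_on_Ioo_succ
  -- the threshold
  have hr0 : (0 : ℝ) < r := by exact_mod_cast hr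
  obtain ⟨n₁, hn₁⟩ : ∃ n₁ : ℕ, ∀ n : ℕ, n₁ ≤ n → 1 ≤ -K + r * (Real.eulerMascheroniConstant +
      Real.log (Real.log n)) - Real.log A := by
    have h3 : Tendsto (fun n : ℕ => Real.log (Real.log (n : ℝ))) atTop atTop :=
      Real.tendsto_log_atTop.comp (Real.tendsto_log_atTop.comp tendsto_natCast_atTop_atTop)
    have h4 := h3.eventually_ge_atTop ((1 + K + Real.log A) / r - Real.eulerMascheroniConstant)
    obtain ⟨n₁, h5⟩ := eventually_atTop.1 h4
    refine ⟨n₁, fun n hn => ?_⟩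
    have h6 := h5 n hn
    have h7 : (1 + K + Real.log A) / r ≤
        Real.eulerMascheroniConstant + Real.log (Real.log (n : ℝ)) := by linarith
    rw [div_le_iff₀ hr0] at h7
    nlinarith
  refine aa_of_lint h1 (A := fun n : ℕ => Ioo (n : ℝ) ((Order.succ n : ℕ) : ℝ))
    (fun n => measurableSet_Ioo) hd (δ := 1 / 2) (by norm_num) (n₀ := max 3 n₁) fun n hn hS => ?_
  have hn3 : 3 ≤ n := (le_max_left _ _).trans hn
  have hnr : (3 : ℝ) ≤ n := by exact_mod_cast hn3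
  have he3 : Real.exp 1 < 3 := Real.exp_one_lt_three
  rw [not_lt] at hS
  have hsucc : ((Order.succ n : ℕ) : ℝ) = (n : ℝ) + 1 := by
    rw [Nat.succ_eq_succ]
    push_cast
    ring
  rw [Measure.restrict_restrict measurableSet_Ioo, hsucc]
  have hI : Ioo (n : ℝ) ((n : ℝ) + 1) ∩ Ioi (Real.exp 1) = Ioo (n : ℝ) ((n : ℝ) + 1) :=
    inter_eq_left.2 fun u hu => lt_trans (by linarith) hu.1
  rw [hI]
  have h2 : ∀ u ∈ Ioo (n : ℝ) ((n : ℝ) + 1),
      ENNReal.ofReal (1 / 2 / n) ≤ ENNReal.ofReal (Dv N α r A u ^ 2 / u) := by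
    intro u hu
    have hu0 : 0 < u := by linarith [hu.1]
    have h4 : ⌊u⌋₊ = n := (Nat.floor_eq_iff hu0.le).2 ⟨hu.1.le, hu.2⟩
    apply ENNReal.ofReal_le_ofReal
    have h5 : 1 ≤ Dv N α r A u := by
      unfold Dv
      rw [pl_floor N α hu0.le, h4]
      refine (hn₁ n ((le_max_right _ _).trans hn)).trans ?_
      have hl1 : 0 < Real.log (n : ℝ) := Real.log_pos (by linarith)
      have h6 : Real.log (Real.log (n : ℝ)) ≤ Real.log (Real.log u) :=
        Real.log_le_log hl1 (Real.log_le_log (by linarith) hu.1.le)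
      have h7 := mul_le_mul_of_nonneg_left h6 hr0.le
      linarith
    rw [div_div, div_le_div_iff₀ (by positivity) hu0]
    have h6 : 1 ≤ Dv N α r A u ^ 2 := one_le_pow₀ h5
    have h7 : u ≤ 2 * n := by linarith [hu.2]
    nlinarith
  refine le_trans ?_ (setLIntegral_mono_ae' measurableSet_Ioo (Eventually.of_forall h2))
  rw [setLIntegral_const, Real.volume_Ioo, add_sub_cancel_left, ENNReal.ofReal_one, mul_one]

end Pool.Agent.TH270.MC
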