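import Pool.Agent.TH270.MC.Defs
import Pool.Agent.TH270.MC.Fwd

/-!
# The mean square theorem for complex Euler products without a zero at the centre
-/

set_option autoImplicit false

open MeasureTheory Filter Topology Set Complex
open scoped ENNReal
open Pool.Agent.TH942.LS (Dat)
open Pool.Agent.TH942.SL
open Pool.Agent.TH942.ES
open Pool.Agent.TH270.MS

namespace Pool.Agent.TH270.MC

variable {X : Type} {d : ℕ} {N : X → ℕ} {α : X → Fin d → ℂ} {e : X × ℕ → ℕ}

/-- coefficients indexed by the prime powers -/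
noncomputable def cF (e : X × ℕ → ℕ) (f : X × ℕ → ℝ) : ℕ → ℝ := Function.extend e f 0

lemma cF_apply (he : Function.Injective e) (f : X × ℕ → ℝ) (p : X × ℕ) : cF e f (e p) = f p :=
  he.extend_apply _ _ _

lemma cF_zero (f : X × ℕ → ℝ) {n : ℕ} (hn : n ∉ Set.range e) : cF e f n = 0 := by
  unfold cF
  rw [Function.extend_apply' _ _ _ hn]
  rfl

lemma tsum_cF {E' : Type} [NormedAddCommGroup E'] (he : Function.Injective e) (c : X × ℕ → ℝ)
    (f : ℝ → ℝ → E') (h0 : ∀ l, f 0 l = 0) :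
    ∑' n, f (cF e c n) (lamS N e n) = ∑' p, f (c p) (lamP N p) := by
  rw [← he.tsum_eq (f := fun n => f (cF e c n) (lamS N e n))]
  · simp only [lamS_apply he, cF_apply he]
  · intro n hn
    by_contra h
    exact hn (by
      change f (cF e c n) (lamS N e n) = 0
      rw [cF_zero c h, h0])

lemma summable_cF {E' : Type} [NormedAddCommGroup E'] (he : Function.Injective e) (c : X × ℕ → ℝ)
    (f : ℝ → ℝ → E') (h0 : ∀ l, f 0 l = 0) :
    Summable (fun n => f (cF e c n) (lamS N e n)) ↔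
      Summable fun p => f (c p) (lamP N p) := by
  rw [← he.summable_iff (f := fun n => f (cF e c n) (lamS N e n))]
  · have : ((fun n => f (cF e c n) (lamS N e n)) ∘ e) = fun p => f (c p) (lamP N p) := by
      funext v
      simp only [Function.comp_apply, lamS_apply he, cF_apply he]
    rw [this]
  · intro n hn
    rw [cF_zero c hn, h0]

theorem cC_sum (E : CS N α) {σ : ℝ} (hσ : 1 / 2 < σ) :
    Summable fun p : X × ℕ => ‖cC N α p‖ * Real.exp (-(σ * lamP N p)) := by
  have E0 := E.empty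
  have h1 : Summable fun v : X => (d : ℝ) * (N v : ℝ) ^ (-(1 / 2 + σ)) :=
    (E.sum (1 / 2 + σ) (by linarith)).mul_left _
  have h2 : Summable fun k : ℕ => (1 / 2 : ℝ) ^ k := summable_geometric_two
  refine Summable.of_nonneg_of_le (fun p => by positivity) (fun p => ?_)
    (h1.mul_of_nonneg h2 (fun v => by positivity) (fun k => by positivity))
  have hN := E0.Npos p.1
  have e1 : 1 / √(N p.1 : ℝ) = (N p.1 : ℝ) ^ (-(1 / 2 : ℝ)) := by
    rw [Real.rpow_neg hN.le, ← Real.sqrt_eq_rpow, one_div]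
  have e2 : (1 / √(N p.1 : ℝ)) ^ (p.2 + 1) * ((N p.1 : ℝ) ^ (-σ)) ^ (p.2 + 1) =
      ((N p.1 : ℝ) ^ (-(1 / 2 + σ))) ^ (p.2 + 1) := by
    rw [← mul_pow, e1, ← Real.rpow_add hN]
    congr 2
    ring
  have e3 : (N p.1 : ℝ) ^ (-(1 / 2 + σ)) ≤ 1 / 2 := by
    calc (N p.1 : ℝ) ^ (-(1 / 2 + σ)) ≤ (N p.1 : ℝ) ^ (-(1 : ℝ)) :=
          Real.rpow_le_rpow_of_exponent_le (by have := E0.Ntwo p.1; linarith) (by linarith)
      _ = (N p.1 : ℝ)⁻¹ := Real.rpow_neg_one _
      _ ≤ 1 / 2 := by
        rw [one_div]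
        exact inv_anti₀ (by norm_num) (E0.Ntwo p.1)
  have e4 : 0 ≤ (N p.1 : ℝ) ^ (-(1 / 2 + σ)) := by positivity
  calc ‖cC N α p‖ * Real.exp (-(σ * lamP N p)) ≤
        (d * (1 / √(N p.1 : ℝ)) ^ (p.2 + 1)) * ((N p.1 : ℝ) ^ (-σ)) ^ (p.2 + 1) := by
        rw [E0.exp_lamP]
        exact mul_le_mul_of_nonneg_right (E.cC_norm p) (by positivity)
    _ = d * ((N p.1 : ℝ) ^ (-(1 / 2 + σ))) ^ (p.2 + 1) := by rw [mul_assoc, e2]
    _ = d * ((N p.1 : ℝ) ^ (-(1 / 2 + σ)) * ((N p.1 : ℝ) ^ (-(1 / 2 + σ))) ^ p.2) := by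
        rw [pow_succ, mul_comm (((N p.1 : ℝ) ^ (-(1 / 2 + σ))) ^ p.2)]
    _ ≤ d * ((N p.1 : ℝ) ^ (-(1 / 2 + σ)) * (1 / 2) ^ p.2) := by gcongr
    _ = _ := by ring

theorem datF (E : CS N α) (he : Function.Injective e) {f : X × ℕ → ℝ}
    (hf : ∀ p, |f p| ≤ ‖cC N α p‖) : Dat (lamS N e) (cF e f) (Real.log 2) 1 where
  δ0 := Real.log_pos (by norm_num)
  σ0 := one_pos
  lam_ge := fun n => by
    by_cases h : n ∈ Set.range e
    · obtain ⟨p, rfl⟩ := h
      rw [lamS_apply he]
      unfold lamP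
      have h1 := Real.log_le_log (by norm_num) (E.empty.Ntwo p.1)
      have h2 : (0 : ℝ) ≤ p.2 := Nat.cast_nonneg _
      have h3 := E.empty.logN p.1
      nlinarith
    · unfold lamS
      rw [Function.extend_apply' _ _ _ h]
  sum := by
    rw [summable_cF he f (fun c l => |c| * Real.exp (-(1 * l))) (fun l => by simp)]
    refine Summable.of_nonneg_of_le (fun p => by positivity) (fun p => ?_)
      (cC_sum E (σ := 1) (by norm_num))
    exact mul_le_mul_of_nonneg_right (hf p) (Real.exp_pos _).le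

/-- real and imaginary parts -/
noncomputable def aR (N : X → ℕ) (α : X → Fin d → ℂ) (p : X × ℕ) : ℝ := -(cC N α p).re

noncomputable def bR (N : X → ℕ) (α : X → Fin d → ℂ) (p : X × ℕ) : ℝ := -(cC N α p).im

lemma aR_abs (p : X × ℕ) : |aR N α p| ≤ ‖cC N α p‖ := by
  unfold aR
  rw [abs_neg]
  exact Complex.abs_re_le_norm _

lemma bR_abs (p : X × ℕ) : |bR N α p| ≤ ‖cC N α p‖ := by
  unfold bR
  rw [abs_neg]
  exact Complex.abs_im_le_norm _

lemma ab_eq (p : X × ℕ) : (aR N α p : ℂ) + I * bR N α p = -cC N α p := by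
  unfold aR bR
  apply Complex.ext <;> simp

/-- minus the logarithm of the Euler product -/
noncomputable def Lm (N : X → ℕ) (α : X → Fin d → ℂ) (e : X × ℕ → ℕ) (s : ℂ) : ℂ :=
  DD (lamS N e) (cF e (aR N α)) s + I * DD (lamS N e) (cF e (bR N α)) s

lemma inner (E : CS N α) {s : ℂ} (hs : 0 ≤ s.re) (v : X) :
    HasSum (fun k : ℕ => cC N α (v, k) * exp (-(s * lamP N (v, k))))
      (∑ i, -log (1 - zv N α v i * xv N v s)) := by
  have hx : ‖xv N v s‖ ≤ 1 := by
    unfold xv
    rw [Complex.norm_exp, Complex.neg_re, Complex.re_mul_ofReal, Real.exp_le_one_iff]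
    have := E.empty.logN v
    have := mul_nonneg hs this.le
    linarith
  have h1 : ∀ i, HasSum (fun k : ℕ => (zv N α v i * xv N v s) ^ (k + 1) / ((k + 1 : ℕ) : ℂ))
      (-log (1 - zv N α v i * xv N v s)) := by
    intro i
    have hz : ‖zv N α v i * xv N v s‖ < 1 := by
      rw [norm_mul]
      have h0 := E.norm_zv_lt v i
      have := norm_nonneg (zv N α v i)
      nlinarith
    have h2 := hasSum_taylorSeries_neg_log hz
    have h3 := (hasSum_nat_add_iff' (f := fun n : ℕ => (zv N α v i * xv N v s) ^ n / (n : ℂ)) 1).2 h2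
    simpa using h3
  refine (hasSum_sum fun i _ => h1 i).congr_fun fun k => ?_
  have e2 : exp (-(s * (lamP N (v, k) : ℝ))) = xv N v s ^ (k + 1) := by
    unfold xv lamP
    rw [← Complex.exp_nat_mul]
    congr 1
    push_cast
    ring
  rw [e2]
  unfold cC
  rw [Finset.sum_div, Finset.sum_mul]
  refine Finset.sum_congr rfl fun i _ => ?_
  rw [mul_pow]
  push_cast
  ring

theorem exp_Lm (E : CS N α) (he : Function.Injective e) {s : ℂ} (hs : 1 < s.re) :
    exp (-Lm N α e s) = LE N α s := by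
  have hsumC : Summable fun p : X × ℕ => cC N α p * exp (-(s * lamP N p)) := by
    refine Summable.of_norm_bounded (cC_sum E (σ := s.re) (by linarith)) fun p => ?_
    rw [norm_mul, Complex.norm_exp, Complex.neg_re, Complex.re_mul_ofReal]
  have hs1 : ∀ f : X × ℕ → ℝ, (∀ p, |f p| ≤ ‖cC N α p‖) →
      Summable fun p : X × ℕ => (f p : ℂ) * exp (-(s * lamP N p)) := by
    intro f hf
    refine Summable.of_norm_bounded (cC_sum E (σ := s.re) (by linarith)) fun p => ?_
    rw [norm_mul, Complex.norm_real, Real.norm_eq_abs, Complex.norm_exp, Complex.neg_re,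
      Complex.re_mul_ofReal]
    exact mul_le_mul_of_nonneg_right (hf p) (Real.exp_pos _).le
  have h3 : ∀ f : X × ℕ → ℝ, DD (lamS N e) (cF e f) s =
      ∑' p, (f p : ℂ) * exp (-(s * lamP N p)) := fun f =>
    tsum_cF he f (fun c l => (c : ℂ) * exp (-(s * l))) (fun l => by simp)
  have h4 : -Lm N α e s = ∑' p, cC N α p * exp (-(s * lamP N p)) := by
    unfold Lm
    rw [h3, h3, ← tsum_mul_left, ← (hs1 _ aR_abs).tsum_add ((hs1 _ bR_abs).mul_left I), ← tsum_neg]
    refine tsum_congr fun p => ?_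
    have := ab_eq (N := N) (α := α) p
    linear_combination (-exp (-(s * lamP N p))) * this
  rw [h4]
  have h5 := (HasSum.prod_fiberwise hsumC.hasSum fun v => inner E (by linarith) v).cexp
  have h6 : (exp ∘ fun v => ∑ i, -log (1 - zv N α v i * xv N v s)) =
      fun v => ∏ i, (1 - zv N α v i * xv N v s)⁻¹ := by
    funext v
    simp only [Function.comp_apply]
    rw [Complex.exp_sum]
    refine Finset.prod_congr rfl fun i _ => ?_
    rw [Complex.exp_neg, Complex.exp_log]
    intro h0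
    have hx : ‖xv N v s‖ ≤ 1 := by
      unfold xv
      rw [Complex.norm_exp, Complex.neg_re, Complex.re_mul_ofReal, Real.exp_le_one_iff]
      have := E.empty.logN v
      have := mul_nonneg (by linarith : 0 ≤ s.re) this.le
      linarith
    have hz : ‖zv N α v i * xv N v s‖ < 1 := by
      rw [norm_mul]
      have h0 := E.norm_zv_lt v i
      have := norm_nonneg (zv N α v i)
      nlinarith
    rw [sub_eq_zero] at h0
    rw [← h0, norm_one] at hz
    exact lt_irrefl _ hz
  rw [h6] at h5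
  exact h5.tprod_eq.symm

/-- the partial sums are the logarithms of the partial products -/
theorem sh_eqC (E : CS N α) (he : Function.Injective e) (T : ℝ) :
    (Sh (lamS N e) (cF e (aR N α)) T : ℂ) + I * (Sh (lamS N e) (cF e (bR N α)) T : ℂ) =
      -Pc N α (Real.exp T) := by
  have hfin := E.empty.finS (Real.exp T)
  have e4 : Pc N α (Real.exp T) = ∑ p ∈ hfin.toFinset, cC N α p :=
    finsum_mem_eq_finite_toFinset_sum (fun p : X × ℕ => cC N α p) hfin
  have hmem : ∀ p : X × ℕ, p ∈ hfin.toFinset ↔ lamP N p ≤ T := by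
    intro p
    rw [Set.Finite.mem_toFinset, Set.mem_ofPred_eq]
    have hN : (0 : ℝ) < (N p.1 : ℝ) ^ (p.2 + 1) := by
      have := E.empty.Npos p.1
      positivity
    rw [← Real.log_le_log_iff hN (Real.exp_pos T), Real.log_pow, Real.log_exp]
    unfold lamP
    push_cast
    rfl
  have e2 : ∀ f : X × ℕ → ℝ, Sh (lamS N e) (cF e f) T = ∑ p ∈ hfin.toFinset, f p := by
    intro f
    have h1 : Sh (lamS N e) (cF e f) T = ∑' p, (if lamP N p ≤ T then f p else 0 : ℝ) :=
      tsum_cF he f (fun c l => if l ≤ T then c else 0) (fun l => by simp)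
    rw [h1, tsum_eq_sum (s := hfin.toFinset)]
    · refine Finset.sum_congr rfl fun p hp => ?_
      rw [if_pos ((hmem p).1 hp)]
    · intro p hp
      rw [if_neg (fun h => hp ((hmem p).2 h))]
  rw [e2, e2, e4, ← Finset.sum_neg_distrib]
  push_cast
  rw [Finset.mul_sum, ← Finset.sum_add_distrib]
  exact Finset.sum_congr rfl fun p _ => ab_eq p

/-- integrability of the Laplace transform -/
lemma lint_c {lam c : ℕ → ℝ} {δ σ : ℝ} (D : Dat lam c δ σ) (r : ℝ) {s : ℂ} (hs : σ < s.re) :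
    Integrable fun u : ℝ => (Er lam c r 0 u : ℂ) * exp (-(s * u)) := by
  obtain ⟨C₂, hC₂, hb⟩ := er_le D r 0
  have h1 : Integrable ((Ici (0 : ℝ)).indicator fun u : ℝ => C₂ * Real.exp ((σ - s.re) * u)) := by
    rw [integrable_indicator_iff measurableSet_Ici, integrableOn_Ici_iff_integrableOn_Ioi]
    exact (integrableOn_exp_mul_Ioi (by linarith) 0).const_mul C₂
  refine h1.mono' ((Complex.measurable_ofReal.comp (er_meas D r 0)).mul
    (by fun_prop)).aestronglyMeasurable (Eventually.of_forall fun u => ?_)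
  rw [norm_mul, norm_exp_neg, Complex.norm_real, Real.norm_eq_abs]
  rcases lt_or_ge u 0 with hu | hu
  · rw [er_zero D r 0 hu.le, abs_zero, zero_mul, indicator_of_notMem (by simpa using hu)]
  · rw [indicator_of_mem (show u ∈ Ici (0 : ℝ) from hu)]
    calc _ ≤ (C₂ * Real.exp (σ * u)) * Real.exp (-(s.re * u)) :=
          mul_le_mul_of_nonneg_right (hb u) (Real.exp_pos _).le
      _ = C₂ * (Real.exp (σ * u) * Real.exp (-(s.re * u))) := by ring
      _ = _ := by
        rw [← Real.exp_add]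
        ring_nf

/-- **Mean square theorem at a centre without zero.** -/
theorem mean_sq {Ψ : ℂ → ℂ} {κ : ℕ} {η C : ℝ} (H : McC N α Ψ κ η C)
    (hne : ∀ s : ℂ, 0 < s.re → Ψ s ≠ 0) (h0 : Ψ 0 ≠ 0) :
    ∃ ℓ : ℂ, exp ℓ = Ψ 0 ∧ ∫⁻ u in Ioi (0 : ℝ), ‖Pc N α (Real.exp u) - ℓ‖ₑ ^ 2 < ⊤ := by
  have E := H.E
  have := E.cnt
  obtain ⟨e, he⟩ := Countable.exists_injective_nat (X × ℕ)
  have Da := datF E he (f := aR N α) aR_abs
  have Db := datF E he (f := bR N α) bR_abs
  set la := lamS N e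
  set ca := cF e (aR N α)
  set cb := cF e (bR N α)
  set r : ℝ := ((0 : ℕ) : ℝ) - (0 : ℕ) with hr
  obtain ⟨C₁, hC₁, hb1⟩ := er_le Da r 0
  obtain ⟨C₂, hC₂, hb2⟩ := er_le Db 0 0
  set Ef : ℝ → ℂ := fun u => (Er la ca r 0 u : ℂ) + I * (Er la cb 0 0 u : ℂ) with hEf
  have hηU : IsOpen {s : ℂ | -η < s.re} := isOpen_lt continuous_const Complex.continuous_re
  have hana : AnalyticAt ℂ Ψ 0 :=
    (DifferentiableOn.analyticOnNhd (fun z hz => (H.hG z hz).differentiableWithinAt) hηU) 0
      (show -η < (0 : ℂ).re by simpa using H.hη)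
  set S₁ : ℝ := ∑' n, |ca n| * Real.exp (-(1 * la n)) with hS₁
  set S₂ : ℝ := ∑' n, |cb n| * Real.exp (-(1 * la n)) with hS₂
  have hS10 : 0 ≤ S₁ := tsum_nonneg fun n => by positivity
  have hS20 : 0 ≤ S₂ := tsum_nonneg fun n => by positivity
  have hdd : ∀ {c : ℕ → ℝ}, Dat la c (Real.log 2) 1 → ∀ s : ℂ, 1 + 1 ≤ s.re →
      ‖DD la c s‖ ≤ ∑' n, |c n| * Real.exp (-(1 * la n)) := by
    intro c D s hs
    refine (dd_le D (s := s) (by linarith)).trans ?_
    have hS0 : 0 ≤ ∑' n, |c n| * Real.exp (-(1 * la n)) := tsum_nonneg fun n => by positivity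
    have e4 : Real.exp (-(Real.log 2 * (s.re - 1))) ≤ 1 := by
      apply Real.exp_le_one_iff.2
      have := mul_nonneg D.δ0.le (by linarith : 0 ≤ s.re - 1)
      linarith
    calc _ ≤ (∑' n, |c n| * Real.exp (-(1 * la n))) * 1 := mul_le_mul_of_nonneg_left e4 hS0
      _ = _ := mul_one _
  obtain ⟨c', hc1, hc2⟩ := fwd (σ := 1) (G₀ := Ψ) (g := Ψ) (k := 0) (p := 0) (κ := κ) (η := η)
    (C := C) (C₁ := C₁ + C₂) (S₀ := S₁ + S₂) (Λ := Lm N α e) (E := Ef) one_pos H.hη
    ((Complex.measurable_ofReal.comp (er_meas Da r 0)).add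
      ((Complex.measurable_ofReal.comp (er_meas Db 0 0)).const_mul I))
    (fun u hu => by
      show (Er la ca r 0 u : ℂ) + I * (Er la cb 0 0 u : ℂ) = 0
      rw [er_zero Da r 0 hu, er_zero Db 0 0 hu]
      simp)
    (by positivity)
    (fun u => by
      refine (norm_add_le _ _).trans ?_
      rw [norm_mul, Complex.norm_I, one_mul, Complex.norm_real, Complex.norm_real,
        Real.norm_eq_abs, Real.norm_eq_abs, add_mul]
      exact add_le_add (hb1 u) (hb2 u))
    (fun s hs => by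
      have i1 : Integrable fun u : ℝ => (Er la ca r 0 u : ℂ) * exp (-(s * u)) := by
        exact lint_c Da r hs
      have i2 : Integrable fun u : ℝ => (Er la cb 0 0 u : ℂ) * exp (-(s * u)) := lint_c Db 0 hs
      have e0 : ∀ u : ℝ, Ef u * exp (-(s * u)) = (Er la ca r 0 u : ℂ) * exp (-(s * u)) +
          I * ((Er la cb 0 0 u : ℂ) * exp (-(s * u))) := fun u => by
        simp only [hEf]
        ring
      simp only [e0]
      rw [integral_add i1 (i2.const_mul I), integral_const_mul, er_lap Da r 0 hs, er_lap Db 0 0 hs]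
      unfold Lm
      simp only [hr]
      push_cast
      ring)
    (fun s hs => (dd_deriv Da hs).differentiableAt.add
      ((dd_deriv Db hs).differentiableAt.const_mul I))
    (by positivity)
    (fun s hs => by
      unfold Lm
      refine (norm_add_le _ _).trans ?_
      rw [norm_mul, Complex.norm_I, one_mul]
      exact add_le_add (hdd Da s hs) (hdd Db s hs))
    H.hG H.hgrow
    (fun s hs => by
      rw [pow_zero, one_mul, exp_Lm E he hs, H.hL s (by linarith)])
    hana h0 (Eventually.of_forall fun s => by rw [pow_zero, one_mul]) hne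
  refine ⟨-c', hc1.symm, lt_of_le_of_lt ?_ hc2⟩
  refine le_trans (setLIntegral_mono_ae' measurableSet_Ioi (Eventually.of_forall fun u hu => ?_))
    (setLIntegral_le_lintegral _ _)
  have h1 : Ef u = -Pc N α (Real.exp u) := by
    rw [← sh_eqC E he u]
    simp only [hEf, hr]
    unfold Er
    rw [indicator_of_mem (show u ∈ Ioi (0 : ℝ) from hu)]
    simp [la, ca, cb]
  rw [h1, indicator_of_mem hu]
  have h2 : -Pc N α (Real.exp u) - c' = -(Pc N α (Real.exp u) - -c') := by ring
  rw [h2, enorm_neg]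

end Pool.Agent.TH270.MC
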